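import Pool.Agent.Work.MP_8f87b2_h77.JVJ1
import Pool.Agent.Work.MP_8f87b2_h21.JVns

/-!
# MP_8f87b2_co, matrix entry I-JV-J3V (rule TE)

`JV3.not_W`: if the phase `S` has the rule TE then `T(((S)))` is none of the twenty words over `(R, B, S1)`, `sq R = (S1, B)`,
provided `R` and `T^2 R = B S1` are not sharp (`JV.NS`). `Is9.inner_J3V_te`, `Is9.inner_J3Vns`. `JV3.NS_of`: if `T^(-1) R` is
not doubly prime then `NS R`.
-/

set_option autoImplicit false

namespace Pool.OddHC

open Finset Equiv BinaryTree Pool.Agent.Work.MP_8f87b2_co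

namespace JV3

open H1 SRun JV1

variable {k : ℕ} {S R B S' : BinaryTree Unit}

/-- the words without 1-parts, `B` arbitrary -/
theorem noone_W' (hR : R ≠ .nil) (hS : S' ≠ .nil) {i : ℕ} (hi : i < 20)
    (h : hg 2 (W R .nil B S' i)) :
    i = 0 ∨ i = 4 ∨ i = 9 ∨ i = 10 ∨ i = 17 ∨ i = 19 ∨ (i = 13 ∧ B = .nil) := by
  by_cases hB : B = .nil
  · subst hB
    have o_ne : ∀ {Z : BinaryTree Unit}, Z ≠ .nil → (.nil △ Z : BinaryTree Unit) ≠ .nil △ .nil := by
      intro Z hZ e
      exact hZ (BinaryTree.node.inj e).2.2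
    interval_cases i
    · simp
    · exact absurd (hg2_app h).2 not_hg2_o
    · exact absurd h not_hg2_o
    · exact absurd h (not_hg2_par (fun h1 => not_hg2_o (hg2_app h1).2) (app_o_ne hR))
    · simp
    · exact absurd h not_hg2_o
    · exact absurd h.2 not_hg2_o
    · exact absurd h (not_hg2_par not_hg2_o (o_ne hR))
    · exact absurd h not_hg2_o
    · simp
    · simp
    · exact absurd (hg2_app h).2 not_hg2_o
    · exact absurd (hg2_app h.2).2 not_hg2_o
    · simp
    · exact absurd h (not_hg2_par not_hg2_o (o_ne hS))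
    · exact absurd h not_hg2_o
    · exact absurd (hg2_app h).2.2 not_hg2_o
    · simp
    · exact absurd h not_hg2_o
    · simp
  · rcases noone_W hR hB hS hi h with h | h | h | h | h | h <;> simp [h]

/-- take away `0011` at the level of the first maximum -/
theorem parts_cut {n : ℕ} {a c d : List Bool}
    (h : JV.FMparts n a (c ++ ([false, false, true, true] ++ d))) : JV.FMparts n a (c ++ d) := by
  have hbot := h.bot
  simp only [List.count_append] at hbot
  simp at hbot
  have key : ∀ m, ∃ m', ((c ++ ([false, false, true, true] ++ d)).take m').count true =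
      ((c ++ d).take m).count true + (if m ≤ c.length then 0 else 2) ∧
      ((c ++ ([false, false, true, true] ++ d)).take m').count false =
      ((c ++ d).take m).count false + (if m ≤ c.length then 0 else 2) := by
    intro m
    by_cases h4 : m ≤ c.length
    · refine ⟨m, ?_, ?_⟩ <;>
      rw [if_pos h4, List.take_append_of_le_length h4, List.take_append_of_le_length h4, add_zero]
    · obtain ⟨i, rfl⟩ : ∃ i, m = c.length + i := ⟨m - c.length, by omega⟩
      refine ⟨c.length + (4 + i), ?_, ?_⟩
      · rw [if_neg h4, List.take_length_add_append, List.take_length_add_append]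
        have e : ([false, false, true, true] ++ d).take (4 + i) = [false, false, true, true] ++ d.take i :=
          List.take_length_add_append (l₁ := [false, false, true, true]) i
        rw [e]
        simp only [List.count_append]
        simp
        omega
      · rw [if_neg h4, List.take_length_add_append, List.take_length_add_append]
        have e : ([false, false, true, true] ++ d).take (4 + i) = [false, false, true, true] ++ d.take i :=
          List.take_length_add_append (l₁ := [false, false, true, true]) i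
        rw [e]
        simp only [List.count_append]
        simp
        omega
  refine ⟨h.lo, h.hi, h.top, ?_, ?_, ?_⟩
  · intro m
    obtain ⟨m', e1, e2⟩ := key m
    have h5 := h.lo' m'
    omega
  · intro m
    obtain ⟨m', e1, e2⟩ := key m
    have h5 := h.hi' m'
    omega
  · simp only [List.count_append]
    omega

/-- `T(((S))) = B(())S'` with `sq R = (S', B)`: `B S'` is sharp -/
theorem sharp10 (h1 : (OddHC.cont S).count 1 = 0) (h3 : 3 ≤ OddHC.ht S) (hd : J3.SqD k R B S')
    {x : X k} (hx : x.1 = (S △ .nil) △ .nil) (e : (TT x).1 = app B ((.nil △ .nil) △ S')) :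
    ¬ JV.NS (app B S') := by
  have hS0 : S ≠ .nil := by
    rintro rfl
    simp [OddHC.ht] at h3
  obtain ⟨a, b, fm, -⟩ := (SRun.Gd_of hS0 h1).1.fm (by rw [H1.ht_eq]; exact h3)
  have k1 := JV.FM3 hx fm
  have hp := JV.parts_of fm
  have htop := hp.top
  have hn : Tsq.ht (.nil : BinaryTree Unit) = 0 := rfl
  have hht : Tsq.ht (TT x).1 = Tsq.ht S + 2 := by
    rw [H1.ht_eq, H1.ht_eq, OddHC.ht_eq, JV.cont3 hx, sup_raise, sup_raise, ← OddHC.ht_eq]
  have hR3 : 3 ≤ Tsq.ht R := by rw [H1.ht_eq]; exact hd.h3
  have hSR : Tsq.ht S' = Tsq.ht R := by rw [H1.ht_eq, H1.ht_eq]; exact hd.htS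
  have hBR : Tsq.ht B ≤ Tsq.ht R := by rw [H1.ht_eq, H1.ht_eq]; exact hd.htB
  have hZ : Tsq.ht ((.nil △ .nil) △ S' : BinaryTree Unit) = Tsq.ht S' := by
    rw [Tsq.ht_node, Tsq.ht_node, hn]
    omega
  obtain ⟨a', b', fm'⟩ := JV.FM_exists hd.neS
  have htop' := fm'.top
  rcases Nat.lt_or_ge (Tsq.ht B) (Tsq.ht S') with h4 | h4
  · have k2 := (fm'.app_left (P := (.nil △ .nil) △ .nil) (by rw [h2n]; omega)).app_left
      (P := B) (by
        change Tsq.ht B < Tsq.ht ((.nil △ .nil) △ S' : BinaryTree Unit)
        rw [hZ]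
        exact h4)
    have k2' : FM (TT x).1 (wd B ++ (wd ((.nil △ .nil) △ .nil : BinaryTree Unit) ++ a')) b' := by
      rw [e]
      exact k2
    obtain ⟨e1, e2⟩ := k1.uniq k2'
    have ha' : 1 ≤ a'.length := by
      have : a'.count true ≤ a'.length := List.count_le_length
      omega
    obtain ⟨a2, z, ha2⟩ : ∃ a2 z, a' = a2 ++ [z] := by
      rcases List.eq_nil_or_concat a' with h5 | ⟨l, z, h5⟩
      · rw [h5] at ha'
        simp at ha'
      · exact ⟨l, z, by rw [h5]; simp⟩
    have e3 : b.map not ++ [true] = (wd B ++ ([true, true, false, false] ++ a2)) ++ [z] := by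
      rw [e1, ha2]
      simp [wd]
    have e4 := List.append_inj_right' e3 rfl
    have e5 := List.append_inj_left' e3 rfl
    have hz : z = true := by simpa using e4.symm
    subst hz
    have hb : b = (wd B).map not ++ ([false, false, true, true] ++ a2.map not) := by
      rw [← JV.not_not_map b, e5]
      simp
    rw [hb] at hp
    obtain ⟨t, ht⟩ := JV.FM_of_parts (parts_cut hp)
    apply JV.sharp_of ht
    rw [wd_app, fm'.eq, ← e2, ha2, List.map_append, JV.not_not_map, JV.not_not_map]
    simp
  · exfalso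
    have hB0 : B ≠ .nil := by
      rintro rfl
      rw [hn] at h4
      omega
    obtain ⟨aB, bB, fB⟩ := JV.FM_exists hB0
    have k2 := fB.app_right (Z := (.nil △ .nil) △ S') (by rw [hZ]; exact h4)
    rw [← e] at k2
    obtain ⟨e1, e2⟩ := k1.uniq k2
    have hBeq : Tsq.ht (TT x).1 = Tsq.ht S' := by
      rw [e, Tsq.ht_app, hZ]
      omega
    have hpB := (JV.parts_of fB).bot
    have hbl : 3 ≤ bB.length := by
      have : bB.count false ≤ bB.length := List.count_le_length
      omega
    -- `a.map not` ends with `wd S'`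
    obtain ⟨r, hr⟩ : ∃ r, a.map not = r ++ wd S' := by
      have e3 : [false, false, false] ++ a.map not =
          (bB ++ [true, true, false, false]) ++ wd S' := by
        have e4 : false :: false :: false :: a.map not = bB ++ wd ((.nil △ .nil) △ S') := e2
        rw [show wd ((.nil △ .nil) △ S' : BinaryTree Unit) = [true, true, false, false] ++ wd S' from by
          simp [wd]] at e4
        simpa using e4
      rcases List.append_eq_append_iff.1 e3 with ⟨l, h5, h6⟩ | ⟨l, h5, h6⟩
      · exact ⟨l, h6⟩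
      · exfalso
        have := congrArg List.length h5
        simp at this
        omega
    have ha : a = (r.map not ++ (a'.map not ++ [false])) ++ b'.map not := by
      rw [← JV.not_not_map a, hr, fm'.eq]
      simp
    have c1 := wd_counts S'
    rw [fm'.eq] at c1
    simp only [List.count_append, List.count_cons] at c1
    simp at c1
    have h7 := hp.lo (r.map not ++ (a'.map not ++ [false])).length
    rw [ha, List.take_left' rfl] at h7
    rw [ha] at htop
    simp only [List.count_append, Tsq.count_not_true, Tsq.count_not_false] at h7 htop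
    simp at h7 htop
    omega

/-- **rule TE: `T(((S)))` is none of the twenty words**, if `R` and `B S'` are not sharp -/
theorem not_W (h1 : (OddHC.cont S).count 1 = 0) (h3 : 3 ≤ OddHC.ht S) (hT : JVI.TE S)
    (hd : J3.SqD k R B S') (n1 : JV.NS R) (n2 : JV.NS (app B S')) {x : X k}
    (hx : x.1 = (S △ .nil) △ .nil) {i : ℕ} (hi : i < 20) : (TT x).1 ≠ W R .nil B S' i := by
  intro e
  have hS0 : S ≠ .nil := by
    rintro rfl
    simp [OddHC.ht] at h3
  have c1 := JV.one3 h3 h1 hx
  have hg2 : hg 2 (W R .nil B S' i) := by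
    rw [← e]
    refine hg_of_cont le_rfl ?_
    intro y hy
    have h4 := cont_pos _ y hy
    have h5 : y ≠ 1 := by
      rintro rfl
      exact (Multiset.count_eq_zero.1 c1) hy
    omega
  obtain ⟨a, b, fm, -⟩ := (SRun.Gd_of hS0 h1).1.fm (by rw [H1.ht_eq]; exact h3)
  obtain ⟨l, A, hA⟩ := hT a b fm
  have prime : ∀ {Z : BinaryTree Unit}, (TT x).1 ≠ Z △ .nil := by
    intro Z e1
    have k1 := JV.wd3 hx fm
    rw [e1, hA] at k1
    have k2 : wd (Z △ .nil) = (b.map not ++ (true :: true :: false :: false :: false :: l)) ++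
        wd (A △ .nil) := by rw [k1]; simp
    exact JVI.prime_cut k2 (by simp)
  rcases noone_W' hd.ne hd.neS hi hg2 with rfl | rfl | rfl | rfl | rfl | rfl | ⟨rfl, rfl⟩
  · exact JV.sharp0 h1 h3 hx e n1
  · exact JV.sharp1 h1 h3 hx e n1
  · exact prime e
  · exact sharp10 h1 h3 hd hx e n2
  · exact prime e
  · exact prime e
  · exact JV.sharp0 h1 h3 hx e n2

/-- if `T^(-1) R` is not doubly prime then `R` is not sharp -/
theorem NS_of {j : ℕ} {y : X j} (e : (TT y).1 = R) (hy : ∀ Y : BinaryTree Unit, y.1 ≠ (Y △ .nil) △ .nil) :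
    JV.NS R := by
  intro i z Y hz h
  have hj : i = j := by
    have h1 := X_num (TT z)
    have h2 := X_num (TT y)
    rw [h] at h1
    rw [e] at h2
    omega
  subst hj
  have h3 : TT z = TT y := Subtype.ext (h.trans e.symm)
  exact hy Y (by rw [← TT.injective h3]; exact hz)

end JV3

open JV1 SRun H1

variable {k : ℕ} {F F' : Set (Cyc k)} {g g' : DG k} {S R B S' : BinaryTree Unit}

/-- the inner words of JV (rule TE) against words of the form `W R nil B S'`, `i < 20` -/
theorem Is9.inner_W_te (h : Is9 .nil .nil S F g) (h3 : 3 ≤ ht S) (h1 : (cont S).count 1 = 0)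
    (hT : JVI.TE S) (hd : J3.SqD k R B S') (n1 : JV.NS R) (n2 : JV.NS (app B S'))
    {A : Finset (X k)} (hA : ∀ w ∈ A, ∃ i < 20, w.1 = W R .nil B S' i) :
    ∀ p ∈ g.arcs, ∀ w ∈ innA p, w ∉ A := by
  intro p hp v hv hm
  obtain ⟨i, hi, e⟩ := hA v hm
  rcases h.nis h3 h1 p hp v hv with h4 | ⟨_, rfl, h5⟩
  · exact h4.not_mem (B := A) (fun w hw => by
      obtain ⟨j, hj, e'⟩ := hA w hw
      exact NJS.of_W hd.ne hd.neS hd.one hd.oneB hd.oneS hj (Or.inl e')) hm
  · exact JV3.not_W h1 h3 hT hd n1 n2 h5 hi e

/-- **I-JV-J3V, rule TE**: the type J3V with `R` and `B S'` not sharp -/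
theorem Is9.inner_J3V_te (h : Is9 .nil .nil S F g) (h3 : 3 ≤ ht S) (h1 : (cont S).count 1 = 0)
    (hT : JVI.TE S) {w0 : X k} (hd : J3.SqD k R B S') (n1 : JV.NS R) (n2 : JV.NS (app B S')) :
    ∀ p ∈ g.arcs, ∀ w ∈ innA p, w ∉ (gadS (J3.sX R B S' w0)).B := by
  refine h.inner_W_te h3 h1 hT hd n1 n2 ?_
  intro w hw
  obtain ⟨i, hi, _, rfl⟩ := mem_gadS.1 hw
  exact ⟨i, hi, hd.word w0 hi⟩

end Pool.OddHC
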