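import Pool.Agent.Work.MP_8f87b2_h68.J1I
import Pool.Agent.Work.MP_8f87b2_h61.JsW

/-!
# MP_8f87b2_co, matrix entries I-JV-J1 and I-J1-JV, right and mirrored, general phase

JV = `Is9 .nil .nil S` / `Is9M .nil .nil S` (no 1-part, `3 ≤ ht S`), J1 = the gadgets J1a over `[s][c]` (`IsJ1 s c`, `IsJ1M s c`),
`2 ≤ c`, `c + 2 ≤ s`. No START or TE condition.

`J1A.inner_JV` .. : the inner words of J1 are no words of JV, if no class of JV has the content `(c, s, 2)`.
`Is9.inner_J1` .. : the inner words of JV are no words of J1, if no class of JV has the content `(c, s, 2)` and `S` is not one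
of the four words `ExA s c` (right against right, mirrored against mirrored) or `ExB s c` (right against mirrored); these words
have the content `(c, s - 2, 2)` or `(c + 1, s - 1)`.
-/

set_option autoImplicit false

namespace Pool.OddHC

open Finset Equiv BinaryTree Pool.Agent.Work.MP_8f87b2_co

namespace JV1

open H1 SRun

variable {k s c : ℕ}

/-! ### Words without 1-parts -/

theorem hg2_app {P Q : BinaryTree Unit} (h : hg 2 (app P Q)) : hg 2 P ∧ hg 2 Q := by
  induction P with
  | nil => exact ⟨trivial, h⟩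
  | node u A C _ ih =>
    have h' : hg 2 (A △ app C Q) := h
    exact ⟨⟨h'.1, (ih h'.2).1⟩, (ih h'.2).2⟩

theorem not_hg2_o {X : BinaryTree Unit} : ¬ hg 2 (.nil △ X) := by
  rintro ⟨h1 | ⟨h1, _⟩, _⟩
  · exact absurd h1 (by simp [ch])
  · exact h1 rfl

theorem not_hg2_par {Z X : BinaryTree Unit} (h1 : ¬ hg 2 Z) (h2 : Z ≠ .nil △ .nil) :
    ¬ hg 2 (Z △ X) := by
  rintro ⟨h3 | ⟨_, h3⟩, _⟩
  · exact h2 h3
  · exact h1 h3

theorem app_o_ne {R : BinaryTree Unit} (hR : R ≠ .nil) : app R (.nil △ .nil) ≠ .nil △ .nil := by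
  cases R with
  | nil => exact absurd rfl hR
  | node u A C =>
    intro e
    have e' : A △ app C (.nil △ .nil) = .nil △ .nil := e
    have e2 := (BinaryTree.node.inj e').2.2
    cases C with
    | nil => exact absurd e2 (by simp [app])
    | node _ _ _ => exact absurd e2 (by simp [app])

/-- the words without 1-parts (`B` not empty) -/
theorem noone_W {R B S : BinaryTree Unit} (hR : R ≠ .nil) (hB : B ≠ .nil) (hS : S ≠ .nil) {i : ℕ}
    (hi : i < 20) (h : hg 2 (W R .nil B S i)) :
    i = 0 ∨ i = 4 ∨ i = 9 ∨ i = 10 ∨ i = 17 ∨ i = 19 := by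
  have o_ne : ∀ {Z : BinaryTree Unit}, Z ≠ .nil → (.nil △ Z : BinaryTree Unit) ≠ .nil △ .nil := by
    intro Z hZ e
    exact hZ (BinaryTree.node.inj e).2.2
  interval_cases i
  · simp
  · exact absurd (hg2_app h).2 not_hg2_o
  · exact absurd h not_hg2_o
  · exact absurd h (not_hg2_par (fun h1 => not_hg2_o (hg2_app h1).2) (app_o_ne hR))
  · simp
  · exact absurd h not_hg2_o
  · exact absurd h.2 not_hg2_o
  · exact absurd h (not_hg2_par not_hg2_o (o_ne hR))
  · exact absurd h not_hg2_o
  · simp
  · simp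
  · exact absurd (hg2_app h).2 not_hg2_o
  · exact absurd (hg2_app h.2).2 not_hg2_o
  · exact absurd (hg2_app h).2 (not_hg2_par (fun h1 => not_hg2_o (hg2_app h1).2) (app_o_ne hB))
  · exact absurd h (not_hg2_par not_hg2_o (o_ne hS))
  · exact absurd h not_hg2_o
  · exact absurd (hg2_app h).2.2 not_hg2_o
  · simp
  · exact absurd h not_hg2_o
  · simp

/-! ### Contents -/

theorem raise_inj {M N : Multiset ℕ} (hM : M ≠ 0) (hN : N ≠ 0) (h : raise M = raise N) : M = N := by
  have key : ∀ {M : Multiset ℕ}, M ≠ 0 → (raise M).sup = M.sup + 1 ∧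
      (raise M).erase (M.sup + 1) = M.erase M.sup := by
    intro M hM
    have h1 : (raise M).sup = M.sup + 1 := by
      unfold raise
      rw [Multiset.sup_cons]
      have h2 : (M.erase M.sup).sup ≤ M.sup := Multiset.sup_mono
        (Multiset.subset_of_le (Multiset.erase_le _ _))
      exact le_antisymm (by
        rw [show (M.sup + 1) ⊔ (M.erase M.sup).sup = max (M.sup + 1) (M.erase M.sup).sup from rfl]
        omega) le_sup_left
    refine ⟨h1, ?_⟩
    unfold raise
    rw [Multiset.erase_cons_head]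
  obtain ⟨a1, a2⟩ := key hM
  obtain ⟨b1, b2⟩ := key hN
  have e1 : M.sup = N.sup := by
    have := a1.symm.trans ((congrArg Multiset.sup h).trans b1)
    omega
  have e2 : M.erase M.sup = N.erase N.sup := by
    rw [← a2, ← b2, h, e1]
  rw [← Multiset.cons_erase (sup_mem hM), ← Multiset.cons_erase (sup_mem hN), e2, e1]

theorem raise_ne (M : Multiset ℕ) : raise M ≠ 0 := by
  unfold raise
  exact Multiset.cons_ne_zero

theorem cont_par2 {S : BinaryTree Unit} : OddHC.cont ((S △ .nil) △ .nil) = raise (raise (OddHC.cont S)) := by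
  rw [cont_node, cont_node, cont_nil, add_zero, add_zero]

theorem cont_chs (hs : 1 ≤ s) : OddHC.cont (ch s) = {s} := by
  obtain ⟨n, rfl⟩ : ∃ n, s = n + 1 := ⟨s - 1, by omega⟩
  exact ch_cont n

theorem raise_one {a : ℕ} : raise {a} = {a + 1} := by
  unfold raise
  rw [Multiset.sup_singleton, Multiset.erase_singleton]
  rfl

theorem raise_pair' {a b : ℕ} (h : a ≤ b) : raise ({a} + {b}) = {a} + {b + 1} := by
  unfold raise
  have h1 : ({a} + {b} : Multiset ℕ).sup = b := by
    rw [sup_add', Multiset.sup_singleton, Multiset.sup_singleton]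
    omega
  rw [h1]
  have h2 : ({a} + {b} : Multiset ℕ).erase b = {a} := by
    rw [add_comm, Multiset.singleton_add, Multiset.erase_cons_head]
  rw [h2, ← Multiset.singleton_add, add_comm]

/-- `(a, b, 2)` with the largest part raised -/
theorem raise_tri {a b : ℕ} (h : a ≤ b) (h2 : 2 ≤ b) : raise ({a} + {b} + {2}) = {a} + {b + 1} + {2} := by
  unfold raise
  have h1 : ({a} + {b} + {2} : Multiset ℕ).sup = b := by
    rw [sup_add', sup_add', Multiset.sup_singleton, Multiset.sup_singleton, Multiset.sup_singleton]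
    omega
  rw [h1]
  have e : ({a} + {b} + {2} : Multiset ℕ) = b ::ₘ ({a} + {2}) := by
    rw [← Multiset.singleton_add]
    ac_rfl
  rw [e, Multiset.erase_cons_head, ← Multiset.singleton_add]
  ac_rfl

/-! ### The exceptional words -/

/-- the words `S` such that `T(((S)))` is the word 0, 4, 10 or 19 of J1a over `[s][c]` -/
def ExA (s c : ℕ) (w : List Bool) : Prop :=
  w = List.replicate (s - 3) true ++ (List.replicate c false ++ (List.replicate c true ++
      ([false, false, true, true, true] ++ List.replicate (s - 2) false))) ∨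
  w = List.replicate (s - 3) true ++ (List.replicate c false ++ (List.replicate (c + 1) true ++
      ([false, false, true, true] ++ List.replicate (s - 2) false))) ∨
  w = List.replicate (s - 2) true ++ (List.replicate c false ++ (List.replicate c true ++
      ([false, false, true, true] ++ List.replicate (s - 2) false))) ∨
  w = List.replicate (s - 3) true ++ (List.replicate (c + 1) false ++ (List.replicate (c + 3) true ++
      List.replicate (s - 1) false))

/-- the words `S` such that `T(((S)))` is the mirror image of the word 0, 4, 10 or 19 of J1a over `[s][c]` -/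
def ExB (s c : ℕ) (w : List Bool) : Prop :=
  w = List.replicate (s - 2) true ++ ([false, false, true, true] ++ (List.replicate c false ++
      (List.replicate c true ++ List.replicate (s - 2) false))) ∨
  w = List.replicate (s - 3) true ++ ([false, false, true, true, true] ++ (List.replicate c false ++
      (List.replicate c true ++ List.replicate (s - 2) false))) ∨
  w = List.replicate (s - 3) true ++ ([false, false, true, true] ++ (List.replicate c false ++
      (List.replicate (c + 1) true ++ List.replicate (s - 2) false))) ∨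
  w = List.replicate (s - 1) true ++ (List.replicate (c + 2) false ++ (List.replicate (c + 1) true ++
      List.replicate (s - 2) false))

theorem strip {x : X k} {S : BinaryTree Unit} (hx : x.1 = (S △ .nil) △ .nil) {l : List Bool}
    (h : wd (Tsq.mirX x).1 = true :: true :: (l ++ [false, false])) :
    wd S = (l.map not).reverse := by
  have h1 : wd (Tsq.mir x.1) = true :: true :: (l ++ [false, false]) := h
  have h2 : wd x.1 = ((wd (Tsq.mir x.1)).map not).reverse := by
    rw [← Tsq.wd_mir, Tsq.mir_mir]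
  rw [h1, hx, wd_node, wd_node] at h2
  have h3 : true :: true :: (wd S ++ [false, false]) =
      true :: true :: ((l.map not).reverse ++ [false, false]) := by
    simpa [wd] using h2
  rw [List.cons.injEq, List.cons.injEq] at h3
  exact (List.append_inj' h3.2.2 rfl).1

theorem hch (n : ℕ) : Tsq.ht (ch n) = n := by rw [H1.ht_eq, ch_ht]

theorem h2n : Tsq.ht ((.nil △ .nil) △ .nil : BinaryTree Unit) = 2 := rfl

/-- right against right -/
theorem hitA (hc : 2 ≤ c) (hs : c + 2 ≤ s) {x : X k} {S : BinaryTree Unit}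
    (hx : x.1 = (S △ .nil) △ .nil) {i : ℕ} (hi : i = 0 ∨ i = 4 ∨ i = 10 ∨ i = 19)
    (e : (TT x).1 = W (app (ch s) (ch c)) .nil (ch c) (ch s) i) : ExA s c (wd S) := by
  obtain ⟨m, rfl⟩ : ∃ m, s = m + 2 + 1 := ⟨s - 3, by omega⟩
  have hn : Tsq.ht (.nil : BinaryTree Unit) = 0 := rfl
  have k0 := J.FM_ch (m + 2)
  have e1 : m + 2 + 1 - 3 = m := by omega
  have e2 : m + 2 + 1 - 2 = m + 1 := by omega
  have e3 : m + 2 + 1 - 1 = m + 2 := by omega
  unfold ExA
  rw [e1, e2, e3]
  have key : ∀ {T : BinaryTree Unit} {a b : List Bool}, Tsq.mir (TT x).1 = T → H1.FM T a b →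
      wd (Tsq.mirX x).1 = b.map not ++ false :: a.map not := by
    intro T a b h1 h2
    have h3 : H1.FM (Tsq.mirX (TT x)).1 a b := by
      rw [show (Tsq.mirX (TT x)).1 = T from h1]
      exact h2
    rw [← Tsq.TT_mir]
    exact h3.wdT
  have r3 : List.replicate (m + 2 + 1) true = true :: true :: List.replicate (m + 1) true := rfl
  have r4 : List.replicate (m + 2) false = List.replicate m false ++ [false, false] := by
    rw [List.replicate_add]; rfl
  rcases hi with rfl | rfl | rfl | rfl
  · left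
    have k1 := (k0.app_left (P := ch c) (by rw [hch, hch]; omega)).app_left
      (P := (.nil △ .nil) △ .nil) (by rw [Tsq.ht_app, hch, hch, h2n]; omega)
    have f := key (by
      rw [e]
      change Tsq.mir (app (app (ch (m + 2 + 1)) (ch c)) ((.nil △ .nil) △ .nil)) = _
      rw [Tsq.mir_app, Tsq.mir_app, mir_ch, mir_ch]
      rfl) k1
    have f2 := strip hx (l := List.replicate (m + 1) true ++ ([false, false, false, true, true] ++
      (List.replicate c false ++ (List.replicate c true ++ List.replicate m false)))) (by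
        rw [f, wd_ch]
        simp only [List.map_append, List.map_replicate, Bool.not_false, Bool.not_true]
        rw [r3, r4]
        simp [wd])
    rw [f2]
    simp
  · right; left
    have k1 := (k0.app_right (Z := (.nil △ .nil) △ .nil) (by rw [hch, h2n]; omega)).app_left
      (P := ch c) (by rw [Tsq.ht_app, hch, hch, h2n]; omega)
    have f := key (by
      rw [e]
      change Tsq.mir ((.nil △ .nil) △ app (ch (m + 2 + 1)) (ch c)) = _
      rw [Tsq.mir_node, Tsq.mir_app, mir_ch, mir_ch, app_assoc]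
      rfl) k1
    have f2 := strip hx (l := List.replicate (m + 1) true ++ ([false, false, true, true] ++
      (List.replicate (c + 1) false ++ (List.replicate c true ++ List.replicate m false)))) (by
        rw [f, wd_ch]
        simp only [List.map_append, List.map_replicate, Bool.not_false, Bool.not_true]
        rw [r3, r4, List.replicate_succ (n := c) (a := false)]
        simp [wd])
    rw [f2]
    simp
  · right; right; left
    have k1 := k0.app_right (Z := app ((.nil △ .nil) △ .nil) (ch c)) (by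
      rw [Tsq.ht_app, hch, hch, h2n]; omega)
    have f := key (by
      rw [e]
      change Tsq.mir (app (ch c) ((.nil △ .nil) △ ch (m + 2 + 1))) = _
      rw [Tsq.mir_app, Tsq.mir_node, mir_ch, mir_ch, app_assoc]
      rfl) k1
    have f2 := strip hx (l := List.replicate (m + 1) true ++ ([false, false, true, true] ++
      (List.replicate c false ++ (List.replicate c true ++ List.replicate (m + 1) false)))) (by
        have r5 : List.replicate (m + 1) false ++ [false, false] =
            false :: List.replicate (m + 2) false := by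
          rw [show [false, false] = List.replicate 2 false from rfl, ← List.replicate_add]
          rfl
        rw [f, wd_app, wd_ch]
        simp only [List.map_append, List.map_replicate, Bool.not_false, Bool.not_true,
          List.append_assoc]
        rw [r3, r5]
        simp [wd])
    rw [f2]
    simp
  · right; right; right
    have k1 := (k0.app_left (P := ch (c + 1)) (by rw [hch, hch]; omega)).node (Z := .nil)
      (by rw [hn]; omega)
    have f := key (by
      rw [e]
      change Tsq.mir (app (ch (m + 2 + 1)) (ch c △ .nil) △ .nil) = _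
      rw [Tsq.mir_node, Tsq.mir_app, Tsq.mir_node, mir_ch, mir_ch]
      rfl) k1
    have f2 := strip hx (l := List.replicate (m + 2) true ++ (List.replicate (c + 3) false ++
      (List.replicate (c + 1) true ++ List.replicate m false))) (by
        rw [f, wd_ch]
        simp only [List.map_append, List.map_cons, List.map_replicate, Bool.not_false,
          Bool.not_true]
        have r6 : List.replicate (c + 3) false = false :: false :: List.replicate (c + 1) false := rfl
        rw [r4, r6, show List.replicate (m + 2 + 1) true = true :: List.replicate (m + 2) true from rfl]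
        have r7 : List.replicate (m + 2) true ++ [true] = true :: List.replicate (m + 2) true := by
          rw [show [true] = List.replicate 1 true from rfl, ← List.replicate_add]
          rfl
        have r8 : List.replicate (m + 2) true ++ (true :: (false :: (false ::
            (List.replicate (c + 1) false ++ (List.replicate (c + 1) true ++
            (List.replicate m false ++ [false, false])))))) = (List.replicate (m + 2) true ++ [true]) ++
            (false :: (false :: (List.replicate (c + 1) false ++ (List.replicate (c + 1) true ++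
            (List.replicate m false ++ [false, false]))))) := by simp
        have r9 : (true :: List.replicate (m + 2) true ++ true :: List.map not (wd .nil)) ++
            false :: (false :: (List.replicate (c + 1) false ++ List.replicate (c + 1) true ++
            (List.replicate m false ++ [false, false]))) = true :: (List.replicate (m + 2) true ++
            (true :: (false :: (false ::
            (List.replicate (c + 1) false ++ (List.replicate (c + 1) true ++
            (List.replicate m false ++ [false, false]))))))) := by simp [wd]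
        rw [r9, r8, r7]
        simp)
    rw [f2]
    simp

/-- right against mirrored -/
theorem hitB (hc : 2 ≤ c) (hs : c + 2 ≤ s) {x : X k} {S : BinaryTree Unit}
    (hx : x.1 = (S △ .nil) △ .nil) {i : ℕ} (hi : i = 0 ∨ i = 4 ∨ i = 10 ∨ i = 19)
    (e : Tsq.mir (TT x).1 = W (app (ch s) (ch c)) .nil (ch c) (ch s) i) : ExB s c (wd S) := by
  obtain ⟨m, rfl⟩ : ∃ m, s = m + 2 + 1 := ⟨s - 3, by omega⟩
  have hn : Tsq.ht (.nil : BinaryTree Unit) = 0 := rfl
  have k0 := J.FM_ch (m + 2)
  have e1 : m + 2 + 1 - 3 = m := by omega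
  have e2 : m + 2 + 1 - 2 = m + 1 := by omega
  have e3 : m + 2 + 1 - 1 = m + 2 := by omega
  unfold ExB
  rw [e1, e2, e3]
  have key : ∀ {T : BinaryTree Unit} {a b : List Bool}, Tsq.mir (TT x).1 = T → H1.FM T a b →
      wd (Tsq.mirX x).1 = b.map not ++ false :: a.map not := by
    intro T a b h1 h2
    have h3 : H1.FM (Tsq.mirX (TT x)).1 a b := by
      rw [show (Tsq.mirX (TT x)).1 = T from h1]
      exact h2
    rw [← Tsq.TT_mir]
    exact h3.wdT
  have r3 : List.replicate (m + 2 + 1) true = true :: true :: List.replicate (m + 1) true := rfl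
  have r4 : List.replicate (m + 2) false = List.replicate m false ++ [false, false] := by
    rw [List.replicate_add]; rfl
  have r5 : List.replicate (m + 1) false ++ [false, false] = false :: List.replicate (m + 2) false := by
    rw [show [false, false] = List.replicate 2 false from rfl, ← List.replicate_add]
    rfl
  rcases hi with rfl | rfl | rfl | rfl
  · left
    have k1 := (k0.app_right (Z := ch c) (by rw [hch, hch]; omega)).app_right
      (Z := (.nil △ .nil) △ .nil) (by rw [Tsq.ht_app, hch, hch, h2n]; omega)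
    have f := key (e.trans rfl) k1
    have f2 := strip hx (l := List.replicate (m + 1) true ++ (List.replicate c false ++
      (List.replicate c true ++ ([false, false, true, true] ++ List.replicate (m + 1) false)))) (by
        rw [f, wd_ch]
        simp only [List.map_append, List.map_replicate, Bool.not_false, Bool.not_true,
          List.append_assoc]
        rw [r3, r5]
        simp [wd])
    rw [f2]
    simp
  · right; left
    have k1 := (k0.app_right (Z := ch c) (by rw [hch, hch]; omega)).app_left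
      (P := (.nil △ .nil) △ .nil) (by rw [Tsq.ht_app, hch, hch, h2n]; omega)
    have f := key (e.trans rfl) k1
    have f2 := strip hx (l := List.replicate (m + 1) true ++ (List.replicate c false ++
      (List.replicate c true ++ ([false, false, false, true, true] ++ List.replicate m false)))) (by
        rw [f, wd_ch]
        simp only [List.map_append, List.map_replicate, Bool.not_false, Bool.not_true,
          List.append_assoc]
        rw [r3, r4]
        simp [wd])
    rw [f2]
    simp
  · right; right; left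
    have k1 := (k0.app_left (P := (.nil △ .nil) △ .nil) (by rw [hch, h2n]; omega)).app_left
      (P := ch c) (by rw [Tsq.ht_app, hch, hch, h2n]; omega)
    have f := key (e.trans rfl) k1
    have f2 := strip hx (l := List.replicate (m + 1) true ++ (List.replicate (c + 1) false ++
      (List.replicate c true ++ ([false, false, true, true] ++ List.replicate m false)))) (by
        rw [f, wd_ch]
        simp only [List.map_append, List.map_replicate, Bool.not_false, Bool.not_true,
          List.append_assoc]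
        rw [r3, r4, List.replicate_succ (n := c) (a := false)]
        simp [wd])
    rw [f2]
    simp
  · right; right; right
    have k1 := (k0.app_right (Z := ch (c + 1)) (by rw [hch, hch]; omega)).node (Z := .nil)
      (by rw [hn]; omega)
    have f := key (e.trans rfl) k1
    have f2 := strip hx (l := List.replicate (m + 1) true ++ (List.replicate (c + 1) false ++
      (List.replicate (c + 2) true ++ List.replicate (m + 2) false))) (by
        rw [f, wd_ch]
        simp only [List.map_append, List.map_cons, List.map_replicate, Bool.not_false,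
          Bool.not_true, List.append_assoc]
        have r6 : List.replicate (c + 2) true = List.replicate (c + 1) true ++ [true] := by
          rw [List.replicate_add (n := 1)]; rfl
        have r7 : List.replicate (m + 2) false ++ [false, false] = false :: false ::
            List.replicate (m + 2) false := by
          rw [show [false, false] = List.replicate 2 false from rfl, ← List.replicate_add]
          rfl
        rw [r3, r6]
        simp only [List.append_assoc, r7]
        simp [wd])
    rw [f2]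
    simp

/-! ### Contents of the hits -/

theorem cont_x {x : X k} {S : BinaryTree Unit} (hx : x.1 = (S △ .nil) △ .nil) :
    OddHC.cont (TT x).1 = raise (raise (OddHC.cont S)) := by
  rw [cont_TT, hx, cont_par2]

theorem ne_raise {S : BinaryTree Unit} (hS : S ≠ .nil) : OddHC.cont S ≠ 0 :=
  fun h => hS (cont_eq_zero.1 h)

theorem tri_ne (a b d : ℕ) : ({a} + {b} + {d} : Multiset ℕ) ≠ 0 := by
  intro h
  have := congrArg Multiset.card h
  simp at this

theorem pair_ne (a b : ℕ) : ({a} + {b} : Multiset ℕ) ≠ 0 := by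
  intro h
  have := congrArg Multiset.card h
  simp at this

/-- `raise` twice, back -/
theorem back2 {S : BinaryTree Unit} (hS : S ≠ .nil) {M : Multiset ℕ} (hM : M ≠ 0)
    (h : raise (raise (OddHC.cont S)) = raise (raise M)) : OddHC.cont S = M :=
  raise_inj (ne_raise hS) hM (raise_inj (raise_ne _) (raise_ne _) h)

/-- the possible D2 words and the contents -/
theorem hit_cont (hc : 2 ≤ c) (hs : c + 2 ≤ s) {S t : BinaryTree Unit} (hS : S ≠ .nil)
    (h1 : (OddHC.cont S).count 1 = 0) (ht : OddHC.cont t = raise (raise (OddHC.cont S))) {i : ℕ}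
    (hi : i < 20) (e : t = W (app (ch s) (ch c)) .nil (ch c) (ch s) i) :
    ((i = 0 ∨ i = 4 ∨ i = 10) ∧ OddHC.cont S = {c} + {s - 2} + {2}) ∨
    (i = 19 ∧ OddHC.cont S = {c + 1} + {s - 1}) ∨ OddHC.cont S = {c} + {s} := by
  have hg2 : hg 2 t := by
    refine hg_of_cont le_rfl ?_
    intro y hy
    rw [ht] at hy
    have hcS := ne_raise hS
    have p1 : ∀ {M : Multiset ℕ}, M ≠ 0 → (∀ y ∈ M, 2 ≤ y) → ∀ y ∈ raise M, 2 ≤ y := by
      intro M hM h2 y hy
      unfold raise at hy
      rcases Multiset.mem_cons.1 hy with h3 | h3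
      · have := h2 _ (sup_mem hM)
        omega
      · exact h2 y (Multiset.mem_of_mem_erase h3)
    have h2 : ∀ y ∈ OddHC.cont S, 2 ≤ y := by
      intro y hy
      have h3 := cont_pos _ y hy
      have h4 : y ≠ 1 := by
        rintro rfl
        exact (Multiset.count_eq_zero.1 h1) hy
      omega
    exact p1 (raise_ne _) (p1 hcS h2) y hy
  rw [e] at hg2 ht
  have h6 := noone_W (app_ch_ne (s := s) (by omega) _) (ch_ne (by omega)) (ch_ne (by omega)) hi hg2
  have c2 : OddHC.cont ((.nil △ .nil) △ .nil : BinaryTree Unit) = {2} := cont_chs (s := 2) (by omega)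
  obtain ⟨r, rfl⟩ : ∃ r, s = r + 2 := ⟨s - 2, by omega⟩
  have e2 : r + 2 - 2 = r := by omega
  have e3 : r + 2 - 1 = r + 1 := by omega
  rw [e2, e3]
  have q1 : raise (raise ({c} + {r} + {2})) = {c} + {r + 2} + {2} := by
    rw [raise_tri (by omega) (by omega), raise_tri (by omega) (by omega)]
  have q2 : raise (raise ({c + 1} + {r + 1})) = {c + 1} + {r + 3} := by
    rw [raise_pair' (by omega), raise_pair' (by omega)]
  have q3 : raise (raise ({c} + {r + 2})) = {c} + {r + 4} := by
    rw [raise_pair (by omega), raise_pair (by omega)]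
  have cs := cont_chs (s := r + 2) (by omega)
  have cc := cont_chs (s := c) (by omega)
  rcases h6 with rfl | rfl | rfl | rfl | rfl | rfl
  · left
    refine ⟨Or.inl rfl, back2 hS (tri_ne _ _ _) ?_⟩
    rw [q1, ← ht]
    change OddHC.cont (app (app (ch (r + 2)) (ch c)) ((.nil △ .nil) △ .nil)) = _
    rw [cont_app, cont_app, cs, cc, c2, add_comm ({r + 2} : Multiset ℕ) {c}]
  · left
    refine ⟨Or.inr (Or.inl rfl), back2 hS (tri_ne _ _ _) ?_⟩
    rw [q1, ← ht]
    change OddHC.cont (app ((.nil △ .nil) △ .nil) (app (ch (r + 2)) (ch c))) = _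
    rw [cont_app, cont_app, cs, cc, c2]
    ac_rfl
  · right; right
    refine back2 hS (pair_ne _ _) ?_
    rw [q3, ← ht]
    change OddHC.cont ((app (ch (r + 2)) (ch c) △ .nil) △ .nil) = _
    rw [cont_par2, cont_app, cs, cc, add_comm ({r + 2} : Multiset ℕ) {c}, q3]
  · left
    refine ⟨Or.inr (Or.inr rfl), back2 hS (tri_ne _ _ _) ?_⟩
    rw [q1, ← ht]
    change OddHC.cont (app (ch c) (app ((.nil △ .nil) △ .nil) (ch (r + 2)))) = _
    rw [cont_app, cont_app, cs, cc, c2]
    ac_rfl
  · right; right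
    refine back2 hS (pair_ne _ _) ?_
    rw [q3, ← ht]
    change OddHC.cont ((ch (r + 2) △ ch c) △ .nil) = _
    rw [cont_node, cont_node, cs, cc, cont_nil, add_zero, raise_one, add_comm ({r + 2 + 1} : Multiset ℕ) {c},
      raise_pair (by omega)]
  · right; left
    refine ⟨rfl, back2 hS (pair_ne _ _) ?_⟩
    rw [q2, ← ht]
    change OddHC.cont (app (ch (r + 2)) (ch c △ .nil) △ .nil) = _
    rw [cont_node, cont_app, cont_node, cs, cc, cont_nil, add_zero, add_zero, raise_one,
      add_comm ({r + 2} : Multiset ℕ) {c + 1}, raise_pair (by omega)]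

end JV1

open JV1 SRun H1

variable {k s c : ℕ} {F F' : Set (Cyc k)} {g g' : DG k} {S : BinaryTree Unit} {w : ℕ → X k}

/-! ### I-J1-JV -/

/-- a word `((Y))`, `Y` of content `M`, is no word of a gadget of type JV without the class `M + {2}` -/
theorem Is9.not_par2 (h' : Is9 .nil .nil S F' g') (h3 : 3 ≤ ht S) (h1 : (cont S).count 1 = 0)
    {Y : BinaryTree Unit} (hY : Y ≠ .nil) {M : Multiset ℕ} (hM : cont Y = M)
    (hF : ∀ z ∈ F', contc z ≠ M + {2}) {v : X k} (e : v.1 = (Y △ .nil) △ .nil) : v ∉ g'.B := by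
  obtain ⟨w, h2, rfl, rfl⟩ := h'
  intro hv
  obtain ⟨i, hi, rfl⟩ := mem_gad9.1 hv
  have hd := h2.sqd h3 h1
  have c2 : cont ((.nil △ .nil) △ .nil : BinaryTree Unit) = {2} := cont_chs (s := 2) (by omega)
  have key : cont S = M → False := by
    intro h4
    refine hF (cyc (w 0)) (Or.inl rfl) ?_
    rw [contc_cyc, h2.word 0 (by norm_num)]
    change cont (app S ((.nil △ .nil) △ .nil)) = _
    rw [cont_app, h4, c2]
  by_cases h9 : j9 i = 9
  · have hi3 : i = 3 := by
      interval_cases i <;> first | rfl | exact absurd h9 (by decide)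
    subst hi3
    rw [h2.word 3 (by norm_num)] at e
    have e' : (S △ .nil) △ .nil = (Y △ .nil) △ .nil := e
    rw [BinaryTree.node.injEq, BinaryTree.node.injEq] at e'
    exact key (by rw [e'.2.1.2.1, hM])
  · rw [h2.wordW hi] at e
    obtain ⟨_, e1, e2⟩ := par2_W hd.ne hd.neS hY (j9_lt i) h9 e.symm
    have e3 := hd.cont
    rw [e2, cont_nil, zero_add, e1, hM] at e3
    exact key e3.symm

/-- mirrored -/
theorem Is9M.not_par2 (h' : Is9M .nil .nil S F' g') (h3 : 3 ≤ ht S) (h1 : (cont S).count 1 = 0)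
    {Y : BinaryTree Unit} (hY : Y ≠ .nil) {M : Multiset ℕ} (hM : cont Y = M)
    (hF : ∀ z ∈ F', contc z ≠ M + {2}) {v : X k} (e : v.1 = (Y △ .nil) △ .nil) : v ∉ g'.B := by
  obtain ⟨w, h2, rfl, rfl⟩ := h'
  intro hv
  obtain ⟨i, hi, rfl⟩ := mem_gad9M.1 hv
  have hmi : Is9 .nil .nil (Tsq.mir S) {cyc (Tsq.mirX (w 0)), cyc (Tsq.mirX (w 1))}
      (gad9 fun i => Tsq.mirX (w i)) := ⟨_, h2.mir, rfl, rfl⟩
  refine hmi.not_par2 (by rw [ht_mir]; exact h3) (by rw [HM.cont_mir]; exact h1) (Y := Tsq.mir Y)
    ?_ (M := M) (by rw [HM.cont_mir, hM]) ?_ (v := Tsq.mirX (w i)) ?_ (mem_gad9.2 ⟨i, hi, rfl⟩)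
  · intro h4
    apply hY
    have := congrArg Tsq.mir h4
    rw [Tsq.mir_mir] at this
    exact this
  · rintro z (rfl | rfl)
    · rw [contc_cyc]
      have := hF (cyc (w 0)) (Or.inl rfl)
      rw [contc_cyc] at this
      rw [show (Tsq.mirX (w 0)).1 = Tsq.mir (w 0).1 from rfl, HM.cont_mir]
      exact this
    · rw [contc_cyc]
      have := hF (cyc (w 1)) (Or.inr rfl)
      rw [contc_cyc] at this
      rw [show (Tsq.mirX (w 1)).1 = Tsq.mir (w 1).1 from rfl, HM.cont_mir]
      exact this
  · change Tsq.mir (w i).1 = _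
    rw [e, Tsq.mir_node, Tsq.mir_node]
    rfl

/-- **I-J1-JV**: the right gadget J1a over `[s][c]` against JV, right and mirrored -/
theorem J1A.inner_JV (hc : 2 ≤ c) (hs : c + 2 ≤ s) (hA : J.J1A s c g)
    (h' : Is9 .nil .nil S F' g' ∨ Is9M .nil .nil S F' g') (h3 : 3 ≤ ht S)
    (h1 : (cont S).count 1 = 0) (hF : ∀ z ∈ F', contc z ≠ {c} + {s} + {2}) :
    ∀ p ∈ g.arcs, ∀ w ∈ innA p, w ∉ g'.B := by
  intro p hp w hw
  have hN : ∀ v ∈ g'.B, NJS v := by
    rcases h' with h' | h'
    · exact h'.njs h3 h1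
    · exact h'.njs h3 h1
  rcases J1A.nis (by omega) hc hA p hp w hw with h | ⟨x, hx, rfl⟩
  · exact h.not_mem hN
  · obtain ⟨m, rfl⟩ : ∃ m, s = m + 2 + c := ⟨s - c - 2, by omega⟩
    have e := TT_nine hx
    have hY := (cont_prn (m := m) (c := c) (by omega)).1
    have hne : prn m (app (ch c) (ch (c + 2))) ≠ .nil := by
      intro e0
      rw [e0, cont_nil] at hY
      have := congrArg Multiset.card hY
      simp at this
    have hF2 : ∀ z ∈ F', contc z ≠ ({c} + {c + 2 + m}) + {2} := by
      rw [show c + 2 + m = m + 2 + c by omega]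
      exact hF
    rcases h' with h' | h'
    · exact h'.not_par2 h3 h1 hne hY hF2 e
    · exact h'.not_par2 h3 h1 hne hY hF2 e

/-- **I-J1M-JV**: the mirrored gadget J1a over `[s][c]` against JV, right and mirrored -/
theorem J1MA.inner_JV (hc : 2 ≤ c) (hs : c + 2 ≤ s) (hA : J.J1MA s c g)
    (h' : Is9 .nil .nil S F' g' ∨ Is9M .nil .nil S F' g') (h3 : 3 ≤ ht S)
    (h1 : (cont S).count 1 = 0) (hF : ∀ z ∈ F', contc z ≠ {c} + {s} + {2}) :
    ∀ p ∈ g.arcs, ∀ w ∈ innA p, w ∉ g'.B := by
  intro p hp w hw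
  have hN : ∀ v ∈ g'.B, NJS v := by
    rcases h' with h' | h'
    · exact h'.njs h3 h1
    · exact h'.njs h3 h1
  rcases J1MA.nis (by omega) hc hA p hp w hw with h | ⟨x, hx, rfl⟩
  · exact h.not_mem hN
  · obtain ⟨m, rfl⟩ : ∃ m, s = m + 2 + c := ⟨s - c - 2, by omega⟩
    have e := TT_nine hx
    have hY := (cont_prn (m := m) (c := c) (by omega)).2
    have e' : (Tsq.mirX (TT x)).1 = (prn m (app (ch (c + 2)) (ch c)) △ .nil) △ .nil := by
      change Tsq.mir (TT x).1 = _
      rw [e]
      change Tsq.mir (prn (m + 2) (app (ch c) (ch (c + 2)))) = prn (m + 2) (app (ch (c + 2)) (ch c))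
      rw [mir_prn, Tsq.mir_app, mir_ch, mir_ch]
    have hne : prn m (app (ch (c + 2)) (ch c)) ≠ .nil := by
      intro e0
      rw [e0, cont_nil] at hY
      have := congrArg Multiset.card hY
      simp at this
    have hF2 : ∀ z ∈ F', contc z ≠ ({c} + {c + 2 + m}) + {2} := by
      rw [show c + 2 + m = m + 2 + c by omega]
      exact hF
    rcases h' with h' | h'
    · exact h'.not_par2 h3 h1 hne hY hF2 e'
    · exact h'.not_par2 h3 h1 hne hY hF2 e'

/-! ### I-JV-J1 -/

theorem ne_of_h3 (h3 : 3 ≤ ht S) : S ≠ .nil := by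
  rintro rfl
  rw [OddHC.ht] at h3
  omega

/-- the class `(cont S) + {2}` -/
theorem Is9.contF (h : Is9 .nil .nil S F g) : ∃ z ∈ F, contc z = cont S + {2} := by
  obtain ⟨w, h2, rfl, rfl⟩ := h
  refine ⟨cyc (w 0), Or.inl rfl, ?_⟩
  rw [contc_cyc, h2.word 0 (by norm_num)]
  change cont (app S ((.nil △ .nil) △ .nil)) = _
  rw [cont_app, show cont ((.nil △ .nil) △ .nil : BinaryTree Unit) = {2} from cont_chs (s := 2) (by omega)]

theorem Is9M.contF (h : Is9M .nil .nil S F g) : ∃ z ∈ F, contc z = cont S + {2} := by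
  obtain ⟨w, h2, rfl, rfl⟩ := h
  have h4 := h2.mir.word 0 (by norm_num)
  refine ⟨cyc (w 0), Or.inl rfl, ?_⟩
  rw [contc_cyc, ← HM.cont_mir]
  have h5 : Tsq.mir (w 0).1 = w9L .nil .nil (Tsq.mir S) (xT (Tsq.mir S)) 0 := h4
  rw [h5]
  change cont (app (Tsq.mir S) ((.nil △ .nil) △ .nil)) = _
  rw [cont_app, HM.cont_mir,
    show cont ((.nil △ .nil) △ .nil : BinaryTree Unit) = {2} from cont_chs (s := 2) (by omega)]

/-- the inner word `T(((S)))` against the words of J1a over `[s][c]`, right -/
theorem TT9_not_J1 (hc : 2 ≤ c) (hs : c + 2 ≤ s) (hS : S ≠ .nil) (h1 : (cont S).count 1 = 0)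
    (hF : cont S ≠ {c} + {s})
    (hx : cont S = {c} + {s - 2} + {2} ∨ cont S = {c + 1} + {s - 1} → ¬ ExA s c (wd S)) {x : X k}
    (e : x.1 = (S △ .nil) △ .nil) : ¬ J.IsJ1 s c (TT x).1 := by
  rintro ⟨i, hi, e2⟩
  rcases hit_cont hc hs hS h1 (cont_x e) hi e2 with ⟨h4, h5⟩ | ⟨h4, h5⟩ | h5
  · exact hx (Or.inl h5) (hitA hc hs e (by tauto) e2)
  · exact hx (Or.inr h5) (hitA hc hs e (by tauto) e2)
  · exact hF h5

/-- the inner word `T(((S)))` against the words of the mirrored J1a over `[s][c]` -/
theorem TT9_not_J1M (hc : 2 ≤ c) (hs : c + 2 ≤ s) (hS : S ≠ .nil) (h1 : (cont S).count 1 = 0)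
    (hF : cont S ≠ {c} + {s})
    (hx : cont S = {c} + {s - 2} + {2} ∨ cont S = {c + 1} + {s - 1} → ¬ ExB s c (wd S)) {x : X k}
    (e : x.1 = (S △ .nil) △ .nil) : ¬ J.IsJ1M s c (TT x).1 := by
  rintro ⟨i, hi, e2⟩
  have e3 : cont (Tsq.mir (TT x).1) = raise (raise (cont S)) := by
    rw [HM.cont_mir]
    exact cont_x e
  rcases hit_cont hc hs hS h1 e3 hi e2 with ⟨h4, h5⟩ | ⟨h4, h5⟩ | h5
  · exact hx (Or.inl h5) (hitB hc hs e (by tauto) e2)
  · exact hx (Or.inr h5) (hitB hc hs e (by tauto) e2)
  · exact hF h5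

/-- **I-JV-J1**, right against right -/
theorem Is9.inner_J1 (hc : 2 ≤ c) (hs : c + 2 ≤ s) (h : Is9 .nil .nil S F g) (h3 : 3 ≤ ht S)
    (h1 : (cont S).count 1 = 0) (hF : ∀ z ∈ F, contc z ≠ {c} + {s} + {2})
    (hx : cont S = {c} + {s - 2} + {2} ∨ cont S = {c + 1} + {s - 1} → ¬ ExA s c (wd S))
    {B : Finset (X k)} (hB : ∀ w ∈ B, J.IsJ1 s c w.1) : ∀ p ∈ g.arcs, ∀ w ∈ innA p, w ∉ B := by
  intro p hp v hv
  obtain ⟨z, hz, hcz⟩ := h.contF
  rcases h.nis h3 h1 p hp v hv with h4 | ⟨_, rfl, h5⟩
  · exact h4.not_mem fun u hu => IsJ1.njs (s := s) (c := c) (by omega) hc (Or.inl (hB u hu))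
  · intro hm
    exact TT9_not_J1 hc hs (ne_of_h3 h3) h1 (fun h6 => hF z hz (by rw [hcz, h6])) hx h5 (hB _ hm)

/-- **I-JV-J1M**, right against mirrored -/
theorem Is9.inner_J1M (hc : 2 ≤ c) (hs : c + 2 ≤ s) (h : Is9 .nil .nil S F g) (h3 : 3 ≤ ht S)
    (h1 : (cont S).count 1 = 0) (hF : ∀ z ∈ F, contc z ≠ {c} + {s} + {2})
    (hx : cont S = {c} + {s - 2} + {2} ∨ cont S = {c + 1} + {s - 1} → ¬ ExB s c (wd S))
    {B : Finset (X k)} (hB : ∀ w ∈ B, J.IsJ1M s c w.1) : ∀ p ∈ g.arcs, ∀ w ∈ innA p, w ∉ B := by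
  intro p hp v hv
  obtain ⟨z, hz, hcz⟩ := h.contF
  rcases h.nis h3 h1 p hp v hv with h4 | ⟨_, rfl, h5⟩
  · exact h4.not_mem fun u hu => IsJ1.njs (s := s) (c := c) (by omega) hc (Or.inr (hB u hu))
  · intro hm
    exact TT9_not_J1M hc hs (ne_of_h3 h3) h1 (fun h6 => hF z hz (by rw [hcz, h6])) hx h5 (hB _ hm)

/-- **I-JVM-J1**, mirrored against right -/
theorem Is9M.inner_J1 (hc : 2 ≤ c) (hs : c + 2 ≤ s) (h : Is9M .nil .nil S F g) (h3 : 3 ≤ ht S)
    (h1 : (cont S).count 1 = 0) (hF : ∀ z ∈ F, contc z ≠ {c} + {s} + {2})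
    (hx : cont S = {c} + {s - 2} + {2} ∨ cont S = {c + 1} + {s - 1} → ¬ ExB s c (wd (Tsq.mir S)))
    {B : Finset (X k)} (hB : ∀ w ∈ B, J.IsJ1 s c w.1) : ∀ p ∈ g.arcs, ∀ w ∈ innA p, w ∉ B := by
  intro p hp v hv
  obtain ⟨z, hz, hcz⟩ := h.contF
  rcases h.nis h3 h1 p hp v hv with h4 | ⟨_, x, rfl, h5⟩
  · exact h4.not_mem fun u hu => IsJ1.njs (s := s) (c := c) (by omega) hc (Or.inl (hB u hu))
  · intro hm
    have hm2 : J.IsJ1M s c (TT x).1 := hB _ hm
    exact TT9_not_J1M hc hs (ne_of_h3 (S := Tsq.mir S) (by rw [ht_mir]; exact h3))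
      (by rw [HM.cont_mir]; exact h1) (fun h6 => hF z hz (by rw [hcz, ← h6, HM.cont_mir]))
      (by rw [HM.cont_mir]; exact hx) h5 hm2

/-- **I-JVM-J1M**, mirrored against mirrored -/
theorem Is9M.inner_J1M (hc : 2 ≤ c) (hs : c + 2 ≤ s) (h : Is9M .nil .nil S F g) (h3 : 3 ≤ ht S)
    (h1 : (cont S).count 1 = 0) (hF : ∀ z ∈ F, contc z ≠ {c} + {s} + {2})
    (hx : cont S = {c} + {s - 2} + {2} ∨ cont S = {c + 1} + {s - 1} → ¬ ExA s c (wd (Tsq.mir S)))
    {B : Finset (X k)} (hB : ∀ w ∈ B, J.IsJ1M s c w.1) : ∀ p ∈ g.arcs, ∀ w ∈ innA p, w ∉ B := by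
  intro p hp v hv
  obtain ⟨z, hz, hcz⟩ := h.contF
  rcases h.nis h3 h1 p hp v hv with h4 | ⟨_, x, rfl, h5⟩
  · exact h4.not_mem fun u hu => IsJ1.njs (s := s) (c := c) (by omega) hc (Or.inr (hB u hu))
  · intro hm
    have hm2 : J.IsJ1 s c (TT x).1 := by
      have h6 : J.IsJ1 s c (Tsq.mir (Tsq.mir (TT x).1)) := hB _ hm
      rwa [Tsq.mir_mir] at h6
    exact TT9_not_J1 hc hs (ne_of_h3 (S := Tsq.mir S) (by rw [ht_mir]; exact h3))
      (by rw [HM.cont_mir]; exact h1) (fun h6 => hF z hz (by rw [hcz, ← h6, HM.cont_mir]))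
      (by rw [HM.cont_mir]; exact hx) h5 hm2

/-! ### The type `TyJs` (`s = k - 5`, `c = 3`) -/

theorem J1.TyJs.isJ1 (h : J1.TyJs F g) : ∃ s, s + 5 = k ∧ (∀ w ∈ g.B, J.IsJ1 s 3 w.1) ∧
    J.J1A s 3 g := by
  obtain ⟨n, w0, h1, h2, _, rfl, rfl⟩ := h
  refine ⟨n + 1, ?_, J1_data h2 w0 rfl rfl rfl⟩
  have hk := h2.num
  change (app (ch (n + 1)) (ch 3)).numNodes + 2 = k at hk
  rw [num_app', ch_num, ch_num] at hk
  omega

/-- **I-J1-JV** for `TyJs` -/
theorem J1.TyJs.inner_JV (hk : 10 ≤ k) (h : J1.TyJs F g)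
    (h' : Is9 .nil .nil S F' g' ∨ Is9M .nil .nil S F' g') (h3 : 3 ≤ ht S)
    (h1 : (cont S).count 1 = 0) (hF : ∀ z ∈ F', contc z ≠ {3} + {k - 5} + {2}) :
    ∀ p ∈ g.arcs, ∀ w ∈ innA p, w ∉ g'.B := by
  obtain ⟨s, rfl, _, hA⟩ := h.isJ1
  exact J1A.inner_JV (by norm_num) (by omega) hA h' h3 h1 (by simpa using hF)

/-- **I-JV-J1** for `TyJs` -/
theorem Is9.inner_Js (hk : 10 ≤ k) (h : Is9 .nil .nil S F g) (h' : J1.TyJs F' g') (h3 : 3 ≤ ht S)
    (h1 : (cont S).count 1 = 0) (hF : ∀ z ∈ F, contc z ≠ {3} + {k - 5} + {2})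
    (hx : cont S = {3} + {k - 7} + {2} ∨ cont S = {4} + {k - 6} → ¬ ExA (k - 5) 3 (wd S)) :
    ∀ p ∈ g.arcs, ∀ w ∈ innA p, w ∉ g'.B := by
  obtain ⟨s, rfl, hB, _⟩ := h'.isJ1
  have e1 : s + 5 - 5 = s := by omega
  have e2 : s + 5 - 7 = s - 2 := by omega
  have e3 : s + 5 - 6 = s - 1 := by omega
  rw [e1] at hF hx
  rw [e2, e3] at hx
  exact h.inner_J1 (by norm_num) (by omega) h3 h1 hF hx hB

/-- **I-JVM-J1** for `TyJs` -/
theorem Is9M.inner_Js (hk : 10 ≤ k) (h : Is9M .nil .nil S F g) (h' : J1.TyJs F' g') (h3 : 3 ≤ ht S)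
    (h1 : (cont S).count 1 = 0) (hF : ∀ z ∈ F, contc z ≠ {3} + {k - 5} + {2})
    (hx : cont S = {3} + {k - 7} + {2} ∨ cont S = {4} + {k - 6} → ¬ ExB (k - 5) 3 (wd (Tsq.mir S))) :
    ∀ p ∈ g.arcs, ∀ w ∈ innA p, w ∉ g'.B := by
  obtain ⟨s, rfl, hB, _⟩ := h'.isJ1
  have e1 : s + 5 - 5 = s := by omega
  have e2 : s + 5 - 7 = s - 2 := by omega
  have e3 : s + 5 - 6 = s - 1 := by omega
  rw [e1] at hF hx
  rw [e2, e3] at hx
  exact h.inner_J1 (by norm_num) (by omega) h3 h1 hF hx hB

end Pool.OddHC
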