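import Pool.Agent.Work.MP_8f87b2_h77.JV3

/-!
# MP_8f87b2_co: J3V with a double top against the inner words of JV, right and mirrored, every phase

`One t a b`: the word `t` has one peak of height `ht t`, all other heights are at most `ht t - 2`. `T(((S)))` and its mirror
image have this property (`one3`, `one3m`). If `sq R = (S1, B)` with `ht B = ht R` (double top) then no word `W R nil B S1 i`
has it (`not_W`). `ht_B`: double top if the largest part of `R` occurs twice. Rows `Is9.inner_dt`, `Is9M.inner_dt`,
`Is9.inner_J33`, `Is9M.inner_J33`.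
-/

set_option autoImplicit false

namespace Pool.OddHC

open Finset Equiv BinaryTree Pool.Agent.Work.MP_8f87b2_co

namespace DT

open H1 SRun JV1

variable {k : ℕ} {S R B S' : BinaryTree Unit}

/-- one high peak -/
structure One (t : BinaryTree Unit) (a b : List Bool) : Prop where
  fm : FM t a b
  lo : ∀ m, m < a.length → (a.take m).count true + 2 ≤ (a.take m).count false + Tsq.ht t
  hi : ∀ m, 2 ≤ m → (b.take m).count true + 2 ≤ (b.take m).count false

theorem One.no_second {t : BinaryTree Unit} {a b a' b' : List Bool} (h : One t a b) (f : FM t a' b')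
    {p q : List Bool} (e : b' = p ++ q) (hl : 2 ≤ p.length)
    (hc : p.count false < p.count true + 2) : False := by
  obtain ⟨-, rfl⟩ := h.fm.uniq f
  have h1 := h.hi p.length hl
  rw [e, List.take_left' rfl] at h1
  omega

theorem One.no_first {t : BinaryTree Unit} {a b a' b' : List Bool} (h : One t a b) (f : FM t a' b')
    {p q : List Bool} (e : a' = p ++ q) (hl : 1 ≤ q.length)
    (hc : p.count false + Tsq.ht t < p.count true + 2) : False := by
  obtain ⟨rfl, -⟩ := h.fm.uniq f
  have h1 := h.lo p.length (by rw [e, List.length_append]; omega)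
  rw [e, List.take_left' rfl] at h1
  omega

theorem ht3 {x : X k} (hx : x.1 = (S △ .nil) △ .nil) : Tsq.ht (TT x).1 = Tsq.ht S + 2 := by
  rw [H1.ht_eq, H1.ht_eq, OddHC.ht_eq, JV.cont3 hx, sup_raise, sup_raise, ← OddHC.ht_eq]

theorem one3 (hS : S ≠ .nil) {x : X k} (hx : x.1 = (S △ .nil) △ .nil) :
    ∃ a b, One (TT x).1 a b := by
  obtain ⟨a, b, fm⟩ := JV.FM_exists hS
  have hp := JV.parts_of fm
  refine ⟨_, _, JV.FM3 hx fm, ?_, ?_⟩
  · intro m hm
    rw [List.length_append, List.length_map] at hm
    simp at hm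
    rw [List.take_append_of_le_length (by rw [List.length_map]; omega), ← List.map_take,
      Tsq.count_not_true, Tsq.count_not_false, ht3 hx]
    have := hp.lo' m
    omega
  · intro m hm
    rcases m with _ | _ | _ | m
    · omega
    · omega
    · simp
    · rw [List.take_succ_cons, List.take_succ_cons, List.take_succ_cons, ← List.map_take]
      have := hp.lo m
      simp only [List.count_cons, Tsq.count_not_true, Tsq.count_not_false]
      simp
      omega

/-- counts of the end of a list -/
theorem count_rev (z : Bool) (l : List Bool) (m : ℕ) : (l.take (l.length - m)).count z +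
    (l.reverse.take m).count z = l.count z := by
  rw [List.take_reverse, List.count_reverse, ← List.count_append, List.take_append_drop]

theorem one3m (hS : S ≠ .nil) {x : X k} (hx : x.1 = (S △ .nil) △ .nil) :
    ∃ a b, One (Tsq.mir (TT x).1) a b := by
  obtain ⟨a, b, fm⟩ := JV.FM_exists hS
  have hp := JV.parts_of fm
  have htop := hp.top
  have hbot := hp.bot
  have hH : Tsq.ht (Tsq.mir (TT x).1) = Tsq.ht S + 2 := by
    rw [H1.ht_eq, ht_mir, ← H1.ht_eq, ht3 hx]
  have ra : ∀ m, (a.reverse.take m).count true + 1 ≤ (a.reverse.take m).count false + Tsq.ht S := by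
    intro m
    have h1 := count_rev true a m
    have h2 := count_rev false a m
    have h3 := hp.lo (a.length - m)
    omega
  have rb : ∀ m, (b.reverse.take m).count true ≤ (b.reverse.take m).count false := by
    intro m
    have h1 := count_rev true b m
    have h2 := count_rev false b m
    have h3 := hp.lo' (b.length - m)
    omega
  have hw : wd (Tsq.mir (TT x).1) = (a.reverse ++ [true, true]) ++ true :: ([false, false] ++
      b.reverse) := by
    rw [Tsq.wd_mir, JV.wd3 hx fm]
    simp [Function.comp_def]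
  have ta : ∀ m, m ≤ a.length → (a.reverse ++ [true, true]).take m = a.reverse.take m := by
    intro m hm
    exact List.take_append_of_le_length (by rw [List.length_reverse]; exact hm)
  refine ⟨a.reverse ++ [true, true], [false, false] ++ b.reverse, ⟨hw, ?_, ?_⟩, ?_, ?_⟩
  · intro m
    rw [hH]
    rcases Nat.lt_or_ge a.length m with h4 | h4
    · obtain ⟨i, rfl⟩ : ∃ i, m = a.reverse.length + i := ⟨m - a.length, by
        rw [List.length_reverse]; omega⟩
      rw [List.take_length_add_append]
      have h5 := ra a.reverse.length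
      rw [List.take_length] at h5
      have h6 : ([true, true].take i).count true ≤ 2 :=
        le_trans List.count_le_length (by rw [List.length_take]; simp)
      simp only [List.count_append]
      omega
    · rw [ta m h4]
      have := ra m
      omega
  · rw [hH]
    simp only [List.count_append, List.count_reverse]
    simp
    omega
  · intro m hm
    rw [hH]
    rw [List.length_append, List.length_reverse] at hm
    simp at hm
    rcases Nat.lt_or_ge a.length m with h4 | h4
    · obtain rfl : m = a.reverse.length + 1 := by rw [List.length_reverse]; omega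
      rw [List.take_length_add_append]
      simp only [List.count_append, List.count_reverse]
      simp
      omega
    · rw [ta m h4]
      have := ra m
      omega
  · intro m hm
    obtain ⟨i, rfl⟩ : ∃ i, m = [false, false].length + i := ⟨m - 2, by simp; omega⟩
    rw [List.take_length_add_append]
    have := rb i
    simp only [List.count_append]
    simp
    omega

/-- **no word over a double top has one high peak** -/
theorem not_one (hd : J3.SqD k R B S') (hB : OddHC.ht B = OddHC.ht R) {i : ℕ} (hi : i < 20)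
    (hg2 : hg 2 (W R .nil B S' i)) {a b : List Bool} (h : One (W R .nil B S' i) a b) : False := by
  have hn : Tsq.ht (.nil : BinaryTree Unit) = 0 := rfl
  have hR3 : 3 ≤ Tsq.ht R := by rw [H1.ht_eq]; exact hd.h3
  have hSR : Tsq.ht S' = Tsq.ht R := by rw [H1.ht_eq, H1.ht_eq]; exact hd.htS
  have hBR : Tsq.ht B = Tsq.ht R := by rw [H1.ht_eq, H1.ht_eq]; exact hB
  have hB0 : B ≠ .nil := by
    rintro rfl
    rw [hn] at hBR
    omega
  obtain ⟨aB, bB, fB⟩ := JV.FM_exists hB0
  obtain ⟨aS, bS, fS⟩ := JV.FM_exists hd.neS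
  obtain ⟨aR, c, r1, r2, r3, r4, r5, r6, r7⟩ := Tsq.sq_spec R hd.ne
  rw [hd.sq] at r1
  have fR : FM R aR (c ++ false :: wd B) := ⟨r1, r3, r4⟩
  have tB := fB.top
  have tS := fS.top
  have lB := (JV.parts_of fB).bot
  have lS := (JV.parts_of fS).bot
  have len : ∀ l : List Bool, l.count false ≤ l.length := fun l => List.count_le_length
  have eB := fB.eq
  have eS := fS.eq
  have second : ∀ (q : List Bool), ∃ q', (c ++ false :: wd B) ++ q =
      (c ++ (false :: (aB ++ [true]))) ++ q' := by
    intro q
    exact ⟨bB ++ q, by rw [eB]; simp⟩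
  have hc2 : 2 ≤ (c ++ (false :: (aB ++ [true]))).length := by
    simp
    omega
  have hc3 : (c ++ (false :: (aB ++ [true]))).count false < (c ++ (false :: (aB ++ [true]))).count
      true + 2 := by
    simp only [List.count_append, List.count_cons]
    simp
    omega
  rcases noone_W hd.ne hB0 hd.neS hi hg2 with rfl | rfl | rfl | rfl | rfl | rfl
  · have f := fR.app_right (Z := (.nil △ .nil) △ .nil) (by rw [h2n]; omega)
    obtain ⟨q', e⟩ := second (wd ((.nil △ .nil) △ .nil : BinaryTree Unit))
    exact h.no_second f e hc2 hc3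
  · have f := fR.app_left (P := (.nil △ .nil) △ .nil) (by rw [h2n]; omega)
    obtain ⟨q', e⟩ := second []
    rw [List.append_nil] at e
    exact h.no_second f e hc2 hc3
  · have f := (fR.node (Z := .nil) (by rw [hn]; omega)).node (Z := .nil) (by rw [hn]; omega)
    obtain ⟨q', e⟩ := second (false :: wd (.nil : BinaryTree Unit) ++ false :: wd (.nil : BinaryTree Unit))
    refine h.no_second f (p := c ++ (false :: (aB ++ [true]))) (q := q') ?_ hc2 hc3
    rw [← e]
    simp
  · have f := fB.app_right (Z := (.nil △ .nil) △ S') (by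
      rw [Tsq.ht_node, Tsq.ht_node, hn]; omega)
    refine h.no_second f (p := bB ++ ([true, true, false, false] ++ (aS ++ [true]))) (q := bS) ?_ ?_ ?_
    · rw [show wd ((.nil △ .nil) △ S' : BinaryTree Unit) = [true, true, false, false] ++ wd S' from by
        simp [wd], eS]
      simp
    · simp
      omega
    · simp only [List.count_append]
      simp
      omega
  · have f := (fS.node (Z := B) (by omega)).node (Z := .nil) (by rw [hn]; omega)
    refine h.no_second f (p := bS ++ (false :: (aB ++ [true])))
      (q := bB ++ false :: wd (.nil : BinaryTree Unit)) ?_ ?_ ?_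
    · rw [eB]
      simp
    · have := len bS
      simp
      omega
    · simp only [List.count_append, List.count_cons]
      simp
      omega
  · have f := ((fB.node (Z := .nil) (by rw [hn]; omega)).app_left (P := S') (by
      rw [Tsq.ht_node, hn]; omega)).node (Z := .nil) (by rw [hn]; omega)
    have hH : Tsq.ht (W R .nil B S' 19) = Tsq.ht R + 2 := by
      change Tsq.ht (app S' (B △ .nil) △ .nil) = _
      rw [Tsq.ht_node, Tsq.ht_app, Tsq.ht_node, hn]
      omega
    refine h.no_first f (p := true :: (aS ++ [true])) (q := bS ++ (true :: aB)) ?_ ?_ ?_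
    · rw [eS]
      simp
    · simp
      omega
    · rw [hH]
      simp only [List.count_append, List.count_cons]
      simp
      omega

/-- **the inner word `T(((S)))` and its mirror image are no words over a double top** -/
theorem not_W (h1 : (OddHC.cont S).count 1 = 0) (h3 : 3 ≤ OddHC.ht S) (hd : J3.SqD k R B S')
    (hB : OddHC.ht B = OddHC.ht R) {x : X k} (hx : x.1 = (S △ .nil) △ .nil) {i : ℕ} (hi : i < 20) :
    (TT x).1 ≠ W R .nil B S' i ∧ Tsq.mir (TT x).1 ≠ W R .nil B S' i := by
  have hS : S ≠ .nil := ne_of_h3 h3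
  have c1 := JV.one3 h3 h1 hx
  have key : ∀ {t : BinaryTree Unit}, (OddHC.cont t).count 1 = 0 → hg 2 t := by
    intro t ht
    refine hg_of_cont le_rfl ?_
    intro y hy
    have h4 := cont_pos _ y hy
    have h5 : y ≠ 1 := by
      rintro rfl
      exact (Multiset.count_eq_zero.1 ht) hy
    omega
  constructor
  · intro e
    obtain ⟨a, b, h⟩ := one3 hS hx
    rw [e] at h c1
    exact not_one hd hB hi (key c1) h
  · intro e
    obtain ⟨a, b, h⟩ := one3m hS hx
    rw [← HM.cont_mir] at c1
    rw [e] at h c1
    exact not_one hd hB hi (key c1) h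

/-- the largest part occurs twice: double top -/
theorem ht_B {t : BinaryTree Unit} (h : 2 ≤ (OddHC.cont t).count (OddHC.ht t)) :
    OddHC.ht (Tsq.sq t).2 = OddHC.ht t := by
  induction t with
  | nil =>
    rw [cont_nil] at h
    simp at h
  | node u A C _ ihC =>
    have e0 : (BinaryTree.node u A C) = A △ C := rfl
    rw [e0] at h ⊢
    have hmx : OddHC.ht (A △ C) = max (OddHC.ht A + 1) (OddHC.ht C) := rfl
    have hle : ∀ {D : BinaryTree Unit} (y : ℕ), y ∈ OddHC.cont D → y ≤ OddHC.ht D := by
      intro D y hy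
      rw [OddHC.ht_eq]
      exact Multiset.le_sup hy
    have hr : ∀ y ∈ (OddHC.cont A).erase (OddHC.cont A).sup, y ≤ OddHC.ht A := by
      intro y hy
      exact hle y (Multiset.mem_of_mem_erase hy)
    rw [cont_node, Multiset.count_add] at h
    unfold raise at h
    rw [Multiset.count_cons, ← OddHC.ht_eq] at h
    rcases Nat.lt_or_ge (OddHC.ht A + 1) (OddHC.ht C) with h4 | h4
    · have hC : C ≠ .nil := by
        rintro rfl
        rw [show OddHC.ht (.nil : BinaryTree Unit) = 0 from rfl] at h4
        omega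
      have hh : OddHC.ht (A △ C) = OddHC.ht C := by rw [hmx]; omega
      have z1 : ((OddHC.cont A).erase (OddHC.ht A)).count (OddHC.ht C) = 0 := by
        rw [Multiset.count_eq_zero]
        intro hy
        have := hr _ (by rw [← OddHC.ht_eq]; exact hy)
        omega
      rw [hh, z1, if_neg (by omega)] at h
      obtain ⟨Xx, Y, hX⟩ : ∃ Xx Y, (Tsq.sq C).1 = Xx △ Y := by
        cases hc : (Tsq.sq C).1 with
        | nil => exact absurd hc (Tsq.sq_ne hC)
        | node _ Xx Y => exact ⟨Xx, Y, rfl⟩
      rw [Tsq.sq_lt (by rw [H1.ht_eq, H1.ht_eq]; exact h4) hX, hh]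
      exact ihC (by omega)
    · have hh : OddHC.ht (A △ C) = OddHC.ht A + 1 := by rw [hmx]; omega
      have z1 : ((OddHC.cont A).erase (OddHC.ht A)).count (OddHC.ht A + 1) = 0 := by
        rw [Multiset.count_eq_zero]
        intro hy
        have := hr _ (by rw [← OddHC.ht_eq]; exact hy)
        omega
      rw [hh, z1, if_pos rfl] at h
      have h5 : OddHC.ht A + 1 ∈ OddHC.cont C := by
        rw [← Multiset.count_pos]
        omega
      have h6 := hle _ h5
      have e2 : (Tsq.sq (A △ C)).2 = C := by
        by_cases hA : A = .nil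
        · subst hA
          rw [Tsq.sq_nil (by
            rw [H1.ht_eq]
            rw [show OddHC.ht (.nil : BinaryTree Unit) = 0 from rfl] at h4
            omega)]
        · rw [Tsq.sq_ge hA (by rw [H1.ht_eq, H1.ht_eq]; exact h4)]
      rw [e2, hh]
      omega

end DT

open DT JV1 SRun H1

variable {k : ℕ} {F F' : Set (Cyc k)} {g g' : DG k} {S R B S' : BinaryTree Unit}

/-- **the inner words of JV against right and mirrored words over a double top, every phase** -/
theorem Is9.inner_dt (h : Is9 .nil .nil S F g) (h3 : 3 ≤ ht S) (h1 : (cont S).count 1 = 0)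
    (hd : J3.SqD k R B S') (hB : ht B = ht R) {A : Finset (X k)}
    (hA : ∀ w ∈ A, ∃ i < 20, w.1 = W R .nil B S' i ∨ Tsq.mir w.1 = W R .nil B S' i) :
    ∀ p ∈ g.arcs, ∀ w ∈ innA p, w ∉ A := by
  intro p hp v hv hm
  rcases h.nis h3 h1 p hp v hv with h4 | ⟨_, rfl, h5⟩
  · exact h4.not_mem (B := A) (fun w hw => by
      obtain ⟨j, hj, e⟩ := hA w hw
      refine NJS.of_W hd.ne hd.neS hd.one hd.oneB hd.oneS hj ?_
      rcases e with e | e
      · exact Or.inl e
      · exact Or.inr (by rw [← e, Tsq.mir_mir])) hm
  · obtain ⟨i, hi, e⟩ := hA _ hm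
    have h6 := DT.not_W h1 h3 hd hB h5 hi
    rcases e with e | e
    · exact h6.1 e
    · exact h6.2 e

/-- mirrored -/
theorem Is9M.inner_dt (h : Is9M .nil .nil S F g) (h3 : 3 ≤ ht S) (h1 : (cont S).count 1 = 0)
    (hd : J3.SqD k R B S') (hB : ht B = ht R) {A : Finset (X k)}
    (hA : ∀ w ∈ A, ∃ i < 20, w.1 = W R .nil B S' i ∨ Tsq.mir w.1 = W R .nil B S' i) :
    ∀ p ∈ g.arcs, ∀ w ∈ innA p, w ∉ A := by
  intro p hp v hv hm
  rcases h.nis h3 h1 p hp v hv with h4 | ⟨_, x, rfl, h5⟩
  · exact h4.not_mem (B := A) (fun w hw => by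
      obtain ⟨j, hj, e⟩ := hA w hw
      refine NJS.of_W hd.ne hd.neS hd.one hd.oneB hd.oneS hj ?_
      rcases e with e | e
      · exact Or.inl e
      · exact Or.inr (by rw [← e, Tsq.mir_mir])) hm
  · obtain ⟨i, hi, e⟩ := hA _ hm
    have h6 := DT.not_W (by rw [HM.cont_mir]; exact h1) (by rw [ht_mir]; exact h3) hd hB h5 hi
    rcases e with e | e
    · exact h6.2 e
    · have e' : Tsq.mir (Tsq.mir (TT x).1) = W R .nil B S' i := e
      rw [Tsq.mir_mir] at e'
      exact h6.1 e'

/-- a J3V group whose largest part occurs twice has a double top -/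
theorem TyJ3V.double (h : TyJ3V F g) (h2 : ∃ z ∈ F, 2 ≤ (contc z).count (htc z)) :
    ∃ R B S', J3.SqD k R B S' ∧ ht B = ht R ∧ ∀ w ∈ g.B, ∃ i < 20, w.1 = W R .nil B S' i := by
  obtain ⟨R, B, S', w0, hd, _, rfl, rfl⟩ := h
  refine ⟨R, B, S', hd, ?_, ?_⟩
  · have e1 : (Tsq.sq R).2 = B := by rw [hd.sq]
    have hR := hd.h3
    rw [← e1]
    apply ht_B
    obtain ⟨z, hz, hz2⟩ := h2
    have key : ∀ i, i = 0 ∨ i = 1 ∨ i = 2 → ∃ M : Multiset ℕ, (∀ y ∈ M, y ≤ 2) ∧
        cont (W R .nil B S' i) = cont R + M := by
      rintro i (rfl | rfl | rfl)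
      · refine ⟨{2}, by simp, ?_⟩
        change cont (app R ((.nil △ .nil) △ .nil)) = _
        rw [cont_app, show cont ((.nil △ .nil) △ .nil : BinaryTree Unit) = {2} from
          cont_chs (s := 2) (by omega)]
      · refine ⟨{1} + {1}, by simp, ?_⟩
        change cont (app R (.nil △ (.nil △ .nil))) = _
        rw [cont_app, cont_node, cont_node, cont_nil, raise_zero, add_zero]
      · refine ⟨{1} + {1}, by simp, ?_⟩
        change cont (.nil △ app R (.nil △ .nil)) = _
        rw [cont_node, cont_app, cont_node, cont_nil, raise_zero, add_zero]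
        ac_rfl
    obtain ⟨i, hi, rfl⟩ : ∃ i, (i = 0 ∨ i = 1 ∨ i = 2) ∧ z = cyc (J3.sX R B S' w0 i) := by
      rcases hz with hz | hz | hz
      · exact ⟨0, by simp, hz⟩
      · exact ⟨1, by simp, hz⟩
      · exact ⟨2, by simp, hz⟩
    obtain ⟨M, hM, hc⟩ := key i hi
    have e2 : contc (cyc (J3.sX R B S' w0 i)) = cont R + M := by
      rw [contc_cyc, hd.word w0 (by omega), hc]
    have e3 : htc (cyc (J3.sX R B S' w0 i)) = ht R := by
      change (contc (cyc (J3.sX R B S' w0 i))).sup = _
      rw [e2, Multiset.sup_add, ← ht_eq]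
      have : M.sup ≤ 2 := Multiset.sup_le.2 hM
      exact sup_eq_left.2 (by omega)
    rw [e2, e3, Multiset.count_add] at hz2
    have z0 : M.count (ht R) = 0 := by
      rw [Multiset.count_eq_zero]
      intro hy
      have := hM _ hy
      omega
    omega
  · intro w hw
    obtain ⟨i, hi, _, rfl⟩ := mem_gadS.1 hw
    exact ⟨i, hi, hd.word w0 hi⟩

/-- **I-JV-J3V at a double top (height 3), right JV, every phase** -/
theorem Is9.inner_J33 (h : Is9 .nil .nil S F g) (h3 : 3 ≤ ht S) (h1 : (cont S).count 1 = 0)
    (h' : TyJ3V F' g') (h2 : ∃ z ∈ F', 2 ≤ (contc z).count (htc z)) :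
    ∀ p ∈ g.arcs, ∀ w ∈ innA p, w ∉ g'.B := by
  obtain ⟨R, B, S', hd, hB, hW⟩ := h'.double h2
  exact h.inner_dt h3 h1 hd hB fun w hw => by
    obtain ⟨i, hi, e⟩ := hW w hw
    exact ⟨i, hi, Or.inl e⟩

/-- **I-JVm-J3V at a double top (height 3), mirrored JV, every phase** -/
theorem Is9M.inner_J33 (h : Is9M .nil .nil S F g) (h3 : 3 ≤ ht S) (h1 : (cont S).count 1 = 0)
    (h' : TyJ3V F' g') (h2 : ∃ z ∈ F', 2 ≤ (contc z).count (htc z)) :
    ∀ p ∈ g.arcs, ∀ w ∈ innA p, w ∉ g'.B := by
  obtain ⟨R, B, S', hd, hB, hW⟩ := h'.double h2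
  exact h.inner_dt h3 h1 hd hB fun w hw => by
    obtain ⟨i, hi, e⟩ := hW w hw
    exact ⟨i, hi, Or.inl e⟩

end Pool.OddHC
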