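import Pool.Agent.Work.MP_8f87b2_h68.JVJ3
import Pool.Agent.Work.MP_8f87b2_h77.DT
import Pool.Agent.Work.MP_8f87b2_h25.JETy

/-!
# MP_8f87b2_co: the inner words of JV, JVm, JE against J2B: all twenty words `W R nil B S' i` (word 9 included)

`JV.sharp_left`, `sharp_right`, `sharp_prime`: a component which contains the peak of a sharp word is sharp, `T(((S))) = (Y)` is
sharp. `HitJ S R B S' y`: the exact alternatives for `y = T(((S)))` over `sq R = (S', B)`, with the words which are sharp then.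
`Is9.hit_W` (right), `Is9M.hit_W` (mirrored, with the mirror images). Rows: `inner_W_ns` (`S`, `R`, `S'` not sharp: no hit),
`hit_W_up` (`¬ Up S`: all hits have `ht R = ht S`), the same for JE.
-/

set_option autoImplicit false

namespace Pool.OddHC

open Finset Equiv BinaryTree Pool.Agent.Work.MP_8f87b2_co

namespace JV

open H1

variable {k : ℕ} {S Y P Z : BinaryTree Unit}

/-- the form of a sharp word -/
theorem sharp_form (h3 : 3 ≤ OddHC.ht Y) (h : ¬ NS Y) : ∃ t u v, H1.FM t u v ∧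
    wd Y = v.map not ++ (true :: true :: false :: false :: false :: u.map not) := by
  unfold NS at h
  push Not at h
  obtain ⟨j, y, t, hy, e⟩ := h
  have ht : t ≠ .nil := by
    rintro rfl
    have h4 : OddHC.ht (TT y).1 = OddHC.ht y.1 := by
      rw [OddHC.ht_eq, H1.cont_TT, ← OddHC.ht_eq]
    rw [e, hy] at h4
    have : OddHC.ht (((.nil : BinaryTree Unit) △ .nil) △ .nil) = 2 := rfl
    omega
  obtain ⟨u, v, fm⟩ := FM_exists ht
  refine ⟨t, u, v, fm, ?_⟩
  rw [← e]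
  exact wd3 hy fm

theorem sharp_FM (h3 : 3 ≤ OddHC.ht Y) (h : ¬ NS Y) : ∃ t u v, H1.FM t u v ∧
    H1.FM Y (v.map not ++ [true]) (false :: false :: false :: u.map not) := by
  unfold NS at h
  push Not at h
  obtain ⟨j, y, t, hy, e⟩ := h
  have ht : t ≠ .nil := by
    rintro rfl
    have h4 : OddHC.ht (TT y).1 = OddHC.ht y.1 := by
      rw [OddHC.ht_eq, H1.cont_TT, ← OddHC.ht_eq]
    rw [e, hy] at h4
    have : OddHC.ht (((.nil : BinaryTree Unit) △ .nil) △ .nil) = 2 := rfl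
    omega
  obtain ⟨u, v, fm⟩ := FM_exists ht
  refine ⟨t, u, v, fm, ?_⟩
  rw [← e]
  exact FM3 hy fm

/-- the left component of a sharp word -/
theorem sharp_left (h3 : 3 ≤ OddHC.ht P) (hZ : OddHC.ht Z ≤ OddHC.ht P) (h : ¬ NS (app P Z)) :
    ¬ NS P := by
  have hY : OddHC.ht (app P Z) = OddHC.ht P := by rw [OddHC.ht_app]; omega
  obtain ⟨t, u, v, fm, fY⟩ := sharp_FM (by omega) h
  have hP0 : P ≠ .nil := by
    rintro rfl
    simp [OddHC.ht] at h3
  obtain ⟨a', b', fP⟩ := FM_exists hP0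
  have f2 := fP.app_right (Z := Z) (by rw [H1.ht_eq, H1.ht_eq]; exact hZ)
  obtain ⟨e1, e2⟩ := fY.uniq f2
  have hp := parts_of fm
  have hb := (parts_of fP).bot
  have hl : 3 ≤ b'.length := by
    have h5 : b'.count false ≤ b'.length := List.count_le_length
    have h6 : 3 ≤ Tsq.ht P := by rw [H1.ht_eq]; exact h3
    omega
  obtain ⟨l, hb', hu⟩ : ∃ l, b' = false :: false :: false :: l ∧ u.map not = l ++ wd Z := by
    rcases b' with _ | ⟨z1, _ | ⟨z2, _ | ⟨z3, l⟩⟩⟩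
    · simp at hl
    · simp at hl
    · simp at hl
    · simp only [List.cons_append, List.cons.injEq] at e2
      obtain ⟨h5, h6, h7, h8⟩ := e2
      exact ⟨l, by rw [← h5, ← h6, ← h7], h8⟩
  have hu' : u = l.map not ++ (wd Z).map not := by
    rw [← not_not_map u, hu, List.map_append]
  have htop := hp.top
  have cZ := wd_counts Z
  rw [hu'] at htop
  simp only [List.count_append, Tsq.count_not_true, Tsq.count_not_false] at htop
  obtain ⟨t', ht'⟩ := FM_of_parts (n := Tsq.ht t) (u := l.map not) (v := v) (by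
    refine ⟨?_, ?_, ?_, hp.lo', hp.hi', hp.bot⟩
    · intro m
      rcases Nat.lt_or_ge (l.map not).length m with h4 | h4
      · have h5 := hp.lo (l.map not).length
        rw [hu', List.take_left' rfl] at h5
        rw [List.take_of_length_le (by omega)]
        exact h5
      · have h5 := hp.lo m
        rw [hu', List.take_append_of_le_length h4] at h5
        exact h5
    · intro m
      rcases Nat.lt_or_ge (l.map not).length m with h4 | h4
      · have h5 := hp.hi (l.map not).length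
        rw [hu', List.take_left' rfl] at h5
        rw [List.take_of_length_le (by omega)]
        exact h5
      · have h5 := hp.hi m
        rw [hu', List.take_append_of_le_length h4] at h5
        exact h5
    · simp only [Tsq.count_not_true, Tsq.count_not_false]
      omega)
  apply sharp_of ht'
  rw [fP.eq, ← e1, hb', not_not_map]
  simp

/-- the right component of a sharp word -/
theorem sharp_right (h3 : 3 ≤ OddHC.ht Z) (hP : OddHC.ht P < OddHC.ht Z) (h : ¬ NS (app P Z)) :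
    ¬ NS Z := by
  have hY : OddHC.ht (app P Z) = OddHC.ht Z := by rw [OddHC.ht_app]; omega
  obtain ⟨t, u, v, fm, fY⟩ := sharp_FM (by omega) h
  have hZ0 : Z ≠ .nil := by
    rintro rfl
    simp [OddHC.ht] at h3
  obtain ⟨a', b', fZ⟩ := FM_exists hZ0
  have f2 := fZ.app_left (P := P) (by rw [H1.ht_eq, H1.ht_eq]; exact hP)
  obtain ⟨e1, e2⟩ := fY.uniq f2
  have hp := parts_of fm
  have htop := fZ.top
  have hl : 1 ≤ a'.length := by
    have h5 : a'.count true ≤ a'.length := List.count_le_length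
    have h6 : 3 ≤ Tsq.ht Z := by rw [H1.ht_eq]; exact h3
    omega
  obtain ⟨a2, z, ha'⟩ : ∃ a2 z, a' = a2 ++ [z] := by
    rcases List.eq_nil_or_concat a' with h5 | ⟨l, z, h5⟩
    · rw [h5] at hl
      simp at hl
    · exact ⟨l, z, by rw [h5]; simp⟩
  have e3 : v.map not ++ [true] = (wd P ++ a2) ++ [z] := by rw [e1, ha']; simp
  have e4 := List.append_inj_left' e3 rfl
  have e5 := List.append_inj_right' e3 rfl
  have hz : z = true := by simpa using e5.symm
  subst hz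
  have hv : v = (wd P).map not ++ a2.map not := by
    rw [← not_not_map v, e4, List.map_append]
  have cP := wd_counts P
  have hbot := hp.bot
  rw [hv] at hbot
  simp only [List.count_append, Tsq.count_not_true, Tsq.count_not_false] at hbot
  have key : ∀ m, ∃ m', (v.take m').count true = ((a2.map not).take m).count true + (wd P).count true ∧
      (v.take m').count false = ((a2.map not).take m).count false + (wd P).count true := by
    intro m
    refine ⟨((wd P).map not).length + m, ?_, ?_⟩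
    · rw [hv, List.take_length_add_append]
      simp only [List.count_append, Tsq.count_not_true]
      omega
    · rw [hv, List.take_length_add_append]
      simp only [List.count_append, Tsq.count_not_false]
      omega
  obtain ⟨t', ht'⟩ := FM_of_parts (n := Tsq.ht t) (u := u) (v := a2.map not) (by
    refine ⟨hp.lo, hp.hi, hp.top, ?_, ?_, ?_⟩
    · intro m
      obtain ⟨m', h5, h6⟩ := key m
      have h7 := hp.lo' m'
      omega
    · intro m
      obtain ⟨m', h5, h6⟩ := key m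
      have h7 := hp.hi' m'
      omega
    · simp only [Tsq.count_not_true, Tsq.count_not_false]
      omega)
  apply sharp_of ht'
  rw [fZ.eq, ← e2, ha', not_not_map]
  simp

/-- a sharp word has one peak -/
theorem sharp_ne (h3 : 3 ≤ OddHC.ht P) (h : ¬ NS (app P Z)) : OddHC.ht P ≠ OddHC.ht Z := by
  intro hZ
  have hY : OddHC.ht (app P Z) = OddHC.ht P := by rw [OddHC.ht_app]; omega
  obtain ⟨t, u, v, fm, fY⟩ := sharp_FM (by omega) h
  have hP0 : P ≠ .nil := by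
    rintro rfl
    simp [OddHC.ht] at h3
  have hZ0 : Z ≠ .nil := by
    rintro rfl
    rw [hZ] at h3
    simp [OddHC.ht] at h3
  obtain ⟨a', b', fP⟩ := FM_exists hP0
  obtain ⟨c', d', fZ⟩ := FM_exists hZ0
  have f2 := fP.app_right (Z := Z) (by rw [H1.ht_eq, H1.ht_eq]; omega)
  obtain ⟨-, e2⟩ := fY.uniq f2
  have hp := parts_of fm
  have hb := (parts_of fP).bot
  have htZ := fZ.top
  have hl : 3 ≤ b'.length := by
    have h5 : b'.count false ≤ b'.length := List.count_le_length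
    have h6 : 3 ≤ Tsq.ht P := by rw [H1.ht_eq]; exact h3
    omega
  obtain ⟨l, hb', hu⟩ : ∃ l, b' = false :: false :: false :: l ∧ u.map not = l ++ wd Z := by
    rcases b' with _ | ⟨z1, _ | ⟨z2, _ | ⟨z3, l⟩⟩⟩
    · simp at hl
    · simp at hl
    · simp at hl
    · simp only [List.cons_append, List.cons.injEq] at e2
      obtain ⟨h5, h6, h7, h8⟩ := e2
      exact ⟨l, by rw [← h5, ← h6, ← h7], h8⟩
  have h5 : ((u.map not).take (l.length + (c'.length + 1))).count true ≤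
      ((u.map not).take (l.length + (c'.length + 1))).count false := by
    rw [← List.map_take, Tsq.count_not_true, Tsq.count_not_false]
    exact hp.lo _
  have e5 : (u.map not).take (l.length + (c'.length + 1)) = l ++ (c' ++ [true]) := by
    rw [hu, List.take_length_add_append, fZ.eq]
    congr 1
    rw [List.take_length_add_append]
    simp
  rw [e5] at h5
  rw [hb'] at hb
  have h6 : Tsq.ht P = Tsq.ht Z := by rw [H1.ht_eq, H1.ht_eq]; exact hZ
  simp only [List.count_append, List.count_cons] at h5 hb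
  simp at h5 hb
  omega

/-- `T(((S))) = (Y)`: `Y` is sharp -/
theorem sharp_prime (h1 : (OddHC.cont S).count 1 = 0) (h3 : 3 ≤ OddHC.ht S) {x : X k}
    (hx : x.1 = (S △ .nil) △ .nil) (e : (TT x).1 = Y △ .nil) : ¬ NS Y := by
  have hS0 : S ≠ .nil := by
    rintro rfl
    simp [OddHC.ht] at h3
  obtain ⟨a, b, fm, -⟩ := (SRun.Gd_of hS0 h1).1.fm (by rw [H1.ht_eq]; exact h3)
  have k1 := wd3 hx fm
  have e2 : wd (Y △ .nil : BinaryTree Unit) = true :: (wd Y ++ [false]) := by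
    simp [wd]
  rw [e, e2] at k1
  have hp := parts_of fm
  have htop := hp.top
  have hbot := hp.bot
  have hS : Tsq.ht S = OddHC.ht S := H1.ht_eq S
  have hlen : 3 ≤ b.length := by
    have : b.count false ≤ b.length := List.count_le_length
    omega
  have hlena : 2 ≤ a.length := by
    have : a.count true ≤ a.length := List.count_le_length
    omega
  obtain ⟨c, hc⟩ : ∃ c, b = false :: c := by
    rcases b with _ | ⟨z1, c⟩
    · simp at hlen
    · simp at k1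
      exact ⟨c, by rw [k1.1]⟩
  obtain ⟨d, hd⟩ : ∃ d, a.map not = d ++ [false] := by
    rcases List.eq_nil_or_concat (a.map not) with h5 | ⟨l1, z1, h5⟩
    · have := congrArg List.length h5
      simp at this
      rw [this] at hlena
      simp at hlena
    refine ⟨l1, ?_⟩
    have e5 : a.map not = l1 ++ [z1] := by
      rw [h5]
      simp
    rw [e5] at k1
    have k2 : (true :: wd Y) ++ [false] = (b.map not ++ ([true, true, false, false,
        false] ++ l1)) ++ [z1] := by simpa using k1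
    have := List.append_inj_right' k2 rfl
    rw [e5, ← this]
  have ha : a = d.map not ++ [true] := by
    rw [← not_not_map a, hd, List.map_append]
    rfl
  have k3 : wd Y = (c.map not) ++ (true :: true :: false :: false :: false :: d) := by
    rw [hc, hd] at k1
    have k2 : (true :: wd Y) ++ [false] = (true :: ((c.map not) ++ (true ::
        true :: false :: false :: false :: d))) ++ [false] := by simpa using k1
    have k4 := List.append_inj_left' k2 rfl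
    simpa using k4
  obtain ⟨t, ht⟩ := FM_of_parts (n := Tsq.ht S - 1) (u := d.map not) (v := c) (by
    rw [hc] at hbot
    simp at hbot
    have htop' := htop
    rw [ha] at htop'
    simp only [List.count_append] at htop'
    simp at htop'
    have hcb : c.count false + 1 = c.count true + Tsq.ht S := by omega
    have hm1 : (c.map not).count true = c.count false := Tsq.count_not_true c
    have hm2 : (c.map not).count false = c.count true := Tsq.count_not_false c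
    refine ⟨?_, ?_, ?_, ?_, ?_, ?_⟩
    · intro m
      rcases Nat.lt_or_ge (d.map not).length m with h4 | h4
      · have h5 := hp.lo (d.map not).length
        rw [ha, List.take_left' rfl] at h5
        rw [List.take_of_length_le (by omega)]
        exact h5
      · have h5 := hp.lo m
        rw [ha, List.take_append_of_le_length h4] at h5
        exact h5
    · intro m
      rw [← List.map_take, Tsq.count_not_true, Tsq.count_not_false]
      have h5 := wd_take Y ((c.map not).length + 5 + m)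
      rw [k3] at h5
      have e6 : ((c.map not) ++ (true :: true :: false :: false :: false :: d)).take
          ((c.map not).length + 5 + m) = (c.map not) ++ (true :: true :: false :: false :: false ::
            d.take m) := by
        rw [List.take_append, List.take_of_length_le (by omega)]
        have : (c.map not).length + 5 + m - (c.map not).length = m + 5 := by omega
        rw [this]
        simp
      rw [e6] at h5
      simp only [List.count_append, List.count_cons] at h5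
      simp only [hm1, hm2] at h5
      simp at h5
      omega
    · omega
    · intro m
      have h5 := hp.lo' (m + 1)
      rw [hc] at h5
      simp at h5
      omega
    · intro m
      have h5 := wd_take Y m
      rcases Nat.lt_or_ge (c.map not).length m with h4 | h4
      · have h6 := wd_take Y (c.map not).length
        rw [k3, List.take_left' rfl, hm1, hm2] at h6
        rw [List.take_of_length_le (by simpa using h4.le)]
        exact h6
      · rw [k3, List.take_append_of_le_length h4, ← List.map_take, Tsq.count_not_true,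
          Tsq.count_not_false] at h5
        exact h5
    · omega)
  apply sharp_of ht
  rw [k3, not_not_map]

end JV

open JV1 SRun H1

variable {k : ℕ} {F F' : Set (Cyc k)} {g g' : DG k} {S R B S' : BinaryTree Unit}

namespace JV

/-- the words over `(R, B, S')` which `T(((S)))` can be, `h = ht S` -/
inductive HitJ (h : ℕ) (R B S' y : BinaryTree Unit) : Prop
  | w0 (hh : OddHC.ht R = h + 2) (e : y = app R ((.nil △ .nil) △ .nil))
  | w4 (hh : OddHC.ht R = h + 2) (e : y = (.nil △ .nil) △ R)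
  | w10 (hh : OddHC.ht R = h + 2) (e : y = app B ((.nil △ .nil) △ S'))
  | w13 (hh : OddHC.ht R = h + 2) (hB : B = .nil) (e : y = app S' ((.nil △ .nil) △ .nil))
  | w19 (hh : OddHC.ht R = h + 1) (hB : B ≠ .nil) (hb : OddHC.ht B ≤ h) (e : y = app S' (B △ .nil) △ .nil)
  | w9 (hh : OddHC.ht R = h) (e : y = (R △ .nil) △ .nil)
  | w17 (hh : OddHC.ht R = h) (e : y = (S' △ B) △ .nil)
  | dt (hh : OddHC.ht R = h) (hB : OddHC.ht B = OddHC.ht R) (e : y = app S' (B △ .nil) △ .nil)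

theorem HitJ.le {h : ℕ} {y : BinaryTree Unit} (e : HitJ h R B S' y) : h ≤ OddHC.ht R ∧ OddHC.ht R ≤ h + 2 := by
  rcases e with ⟨hh, -⟩ | ⟨hh, -⟩ | ⟨hh, -⟩ | ⟨hh, -, -⟩ | ⟨hh, -, -, -⟩ | ⟨hh, -⟩ | ⟨hh, -⟩ | ⟨hh, -, -⟩ <;> omega

/-- the exact alternatives, from the content -/
theorem meetJ (hd : J3.SqD k R B S') {i : ℕ} (hi : i < 20) {y : X k} (e : y.1 = H1.W R .nil B S' i)
    (h3 : 3 ≤ OddHC.ht S) (h1 : (OddHC.cont S).count 1 = 0)
    (c0 : OddHC.cont y.1 = raise (raise (OddHC.cont S))) : HitJ (OddHC.ht S) R B S' y.1 := by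
  by_cases h9 : i = 9
  · subst h9
    have e' : y.1 = (R △ .nil) △ .nil := e
    have hh : OddHC.ht y.1 = OddHC.ht S + 2 := by
      rw [ht_eq, c0, sup_raise, sup_raise, ← ht_eq]
    have n0 : OddHC.ht (.nil : BinaryTree Unit) = 0 := rfl
    rw [e', ht_node, ht_node, n0] at hh
    exact .w9 (by omega) e'
  · rcases JVM.meet3 hd hi h9 e h3 h1 c0 with ⟨hh, e⟩ | ⟨hh, e⟩ | ⟨hh, e⟩ | ⟨hh, hB, e⟩ | ⟨hh, e⟩ |
      ⟨hh, hB, e⟩
    · exact .w0 hh e
    · exact .w4 hh e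
    · exact .w10 hh e
    · exact .w13 hh hB e
    · exact .w17 hh e
    · rcases hh with ⟨h5, h6⟩ | ⟨h5, h6⟩
      · exact .dt h5 (by omega) e
      · exact .w19 h5 hB h6 e

/-- `T(((S)))` over `(R, B, S')`: what is sharp -/
theorem HitJ.sharp (h1 : (OddHC.cont S).count 1 = 0) (h3 : 3 ≤ OddHC.ht S) (hd : J3.SqD k R B S') {x : X k}
    (hx : x.1 = (S △ .nil) △ .nil) (h : HitJ (OddHC.ht S) R B S' (TT x).1) :
    (OddHC.ht R = OddHC.ht S ∧ ((¬ NS R ∧ (TT x).1 = (R △ .nil) △ .nil) ∨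
      (¬ NS S ∧ (TT x).1 = (S' △ B) △ .nil))) ∨
    (OddHC.ht R = OddHC.ht S + 2 ∧ ¬ NS R ∧
      ((TT x).1 = app R ((.nil △ .nil) △ .nil) ∨ (TT x).1 = (.nil △ .nil) △ R)) ∨
    (OddHC.ht R = OddHC.ht S + 2 ∧ ¬ NS S' ∧ ¬ NS (app B S') ∧
      ((TT x).1 = app B ((.nil △ .nil) △ S') ∨ (B = .nil ∧ (TT x).1 = app S' ((.nil △ .nil) △ .nil)))) ∨
    (OddHC.ht R = OddHC.ht S + 1 ∧ OddHC.ht B ≤ OddHC.ht S ∧ B ≠ .nil ∧ ¬ NS S' ∧
      (TT x).1 = app S' (B △ .nil) △ .nil) := by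
  have hS3 : 3 ≤ OddHC.ht S' := by rw [hd.htS]; exact hd.h3
  have n0 : OddHC.ht (.nil : BinaryTree Unit) = 0 := rfl
  rcases h with ⟨hh, e⟩ | ⟨hh, e⟩ | ⟨hh, e⟩ | ⟨hh, hB, e⟩ | ⟨hh, hB, hb, e⟩ | ⟨hh, e⟩ | ⟨hh, e⟩ | ⟨hh, hB, e⟩
  · exact Or.inr (Or.inl ⟨hh, sharp0 h1 h3 hx e, Or.inl e⟩)
  · exact Or.inr (Or.inl ⟨hh, sharp1 h1 h3 hx e, Or.inr e⟩)
  · have hB' : OddHC.ht B ≠ OddHC.ht R := fun h5 => (DT.not_W h1 h3 hd h5 hx (i := 10) (by norm_num)).1 e
    have hB2 := hd.htB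
    have s1 : ¬ NS (app B ((.nil △ .nil) △ S')) := by
      intro hN
      exact hN k x S hx e
    have hZ : OddHC.ht ((.nil △ .nil) △ S' : BinaryTree Unit) = OddHC.ht S' := by
      rw [ht_node, ht_node, n0]
      omega
    have s2 : ¬ NS ((.nil △ .nil) △ S') := sharp_right (by rw [hZ]; exact hS3) (by rw [hZ, hd.htS]; omega) s1
    have s3 : ¬ NS S' := sharp_right (P := (.nil △ .nil) △ .nil) hS3 (by
      rw [ht_node, ht_node, n0]
      omega) s2
    exact Or.inr (Or.inr (Or.inl ⟨hh, s3, JV3.sharp10 h1 h3 hd hx e, Or.inl e⟩))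
  · subst hB
    have s3 := sharp0 h1 h3 hx e
    exact Or.inr (Or.inr (Or.inl ⟨hh, s3, s3, Or.inr ⟨rfl, e⟩⟩))
  · have s1 := sharp_prime h1 h3 hx e
    have s3 : ¬ NS S' := sharp_left hS3 (by rw [ht_node, n0, hd.htS]; omega) s1
    exact Or.inr (Or.inr (Or.inr ⟨hh, hb, hB, s3, e⟩))
  · exact Or.inl ⟨hh, Or.inl ⟨sharp3 h1 h3 hx e, e⟩⟩
  · refine Or.inl ⟨hh, Or.inr ⟨?_, e⟩⟩
    have e1 : TT x = J3.sX R B S' x 17 := Subtype.ext (by rw [hd.word x (by norm_num)]; exact e)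
    rw [← hd.link x (i := 9) (j := 17) (by simp)] at e1
    have e2 : (TT (J3.sX R B S' x 9)).1 = (S △ .nil) △ .nil := by rw [← TT.injective e1]; exact hx
    exact sharp3 hd.one hd.h3 (hd.word x (i := 9) (by norm_num)) e2
  · exact absurd e (DT.not_W h1 h3 hd hB hx (i := 19) (by norm_num)).1

/-- `T(((S)))` is a word over a phase of greater height -/
def Up (S : BinaryTree Unit) : Prop :=
  ∃ (k : ℕ) (x : X k) (R B S' : BinaryTree Unit), x.1 = (S △ .nil) △ .nil ∧ J3.SqD k R B S' ∧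
    OddHC.ht S < OddHC.ht R ∧ ∃ i < 20, (TT x).1 = H1.W R .nil B S' i

/-- `T^(-1)(((S)))` is a word over a phase of greater height -/
def UpM (S : BinaryTree Unit) : Prop :=
  ∃ (k : ℕ) (x : X k) (R B S' : BinaryTree Unit), x.1 = (Tsq.mir S △ .nil) △ .nil ∧ J3.SqD k R B S' ∧
    OddHC.ht S < OddHC.ht R ∧ ∃ i < 20, Tsq.mir (TT x).1 = H1.W R .nil B S' i

/-- what is sharp for the mirrored group -/
theorem HitJ.sharpM (h1 : (OddHC.cont S).count 1 = 0) (h3 : 3 ≤ OddHC.ht S) (hd : J3.SqD k R B S') {x : X k}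
    (hx : x.1 = (Tsq.mir S △ .nil) △ .nil) (h : HitJ (OddHC.ht S) R B S' (Tsq.mir (TT x).1)) :
    (OddHC.ht R = OddHC.ht S ∧ ((¬ NS (Tsq.mir R) ∧ Tsq.mir (TT x).1 = (R △ .nil) △ .nil) ∨
      Tsq.mir (TT x).1 = (S' △ B) △ .nil)) ∨
    (OddHC.ht R = OddHC.ht S + 2 ∧ ¬ NS (Tsq.mir R) ∧
      (Tsq.mir (TT x).1 = app R ((.nil △ .nil) △ .nil) ∨ Tsq.mir (TT x).1 = (.nil △ .nil) △ R)) ∨
    (OddHC.ht R = OddHC.ht S + 2 ∧ ¬ NS (Tsq.mir S') ∧
      (Tsq.mir (TT x).1 = app B ((.nil △ .nil) △ S') ∨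
        (B = .nil ∧ Tsq.mir (TT x).1 = app S' ((.nil △ .nil) △ .nil)))) ∨
    (OddHC.ht R = OddHC.ht S + 1 ∧ OddHC.ht B ≤ OddHC.ht S ∧ B ≠ .nil ∧ ¬ NS (Tsq.mir S') ∧
      Tsq.mir (TT x).1 = app S' (B △ .nil) △ .nil) := by
  have h1' : (OddHC.cont (Tsq.mir S)).count 1 = 0 := by rw [HM.cont_mir]; exact h1
  have h3' : 3 ≤ OddHC.ht (Tsq.mir S) := by rw [ht_mir]; exact h3
  have hS3 : 3 ≤ OddHC.ht (Tsq.mir S') := by rw [ht_mir, hd.htS]; exact hd.h3
  have n0 : OddHC.ht (.nil : BinaryTree Unit) = 0 := rfl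
  have mm : ∀ {y : BinaryTree Unit}, Tsq.mir (TT x).1 = y → (TT x).1 = Tsq.mir y := by
    intro y e
    rw [← e, Tsq.mir_mir]
  have mn : Tsq.mir (.nil : BinaryTree Unit) = .nil := rfl
  have mo : ∀ A : BinaryTree Unit, Tsq.mir (A △ .nil) = Tsq.mir A △ .nil := by
    intro A
    apply wd_ext
    rw [Tsq.wd_mir]
    simp [wd, Tsq.wd_mir]
  have ma : ∀ P Q : BinaryTree Unit, Tsq.mir (app P Q) = app (Tsq.mir Q) (Tsq.mir P) := by
    intro P Q
    apply wd_ext
    rw [Tsq.wd_mir, wd_app, wd_app, Tsq.wd_mir, Tsq.wd_mir]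
    simp
  have mc : ∀ P Q : BinaryTree Unit, Tsq.mir (P △ Q) = app (Tsq.mir Q) (Tsq.mir P △ .nil) := by
    intro P Q
    have e0 : (P △ Q : BinaryTree Unit) = app (P △ .nil) Q := rfl
    rw [e0, ma, mo]
  rcases h with ⟨hh, e⟩ | ⟨hh, e⟩ | ⟨hh, e⟩ | ⟨hh, hB, e⟩ | ⟨hh, hB, hb, e⟩ | ⟨hh, e⟩ | ⟨hh, e⟩ | ⟨hh, hB, e⟩
  · have e' := mm e
    rw [ma, mo, mo, mn] at e'
    exact Or.inr (Or.inl ⟨hh, sharp1 h1' h3' hx e', Or.inl e⟩)
  · have e' := mm e
    rw [mc, mo, mn] at e'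
    exact Or.inr (Or.inl ⟨hh, sharp0 h1' h3' hx e', Or.inr e⟩)
  · have e' := mm e
    rw [ma, mc, mo, mn, app_assoc'] at e'
    have s1 : ¬ NS (app (Tsq.mir S') (app ((.nil △ .nil) △ .nil) (Tsq.mir B))) := by
      intro hN
      exact hN k x _ hx e'
    have hB2 := hd.htB
    have s3 : ¬ NS (Tsq.mir S') := sharp_left hS3 (by
      rw [OddHC.ht_app, ht_mir, ht_mir, ht_node, ht_node, n0, hd.htS]
      have := hd.h3
      omega) s1
    exact Or.inr (Or.inr (Or.inl ⟨hh, s3, Or.inl e⟩))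
  · have e' := mm e
    rw [ma, mo, mo, mn] at e'
    exact Or.inr (Or.inr (Or.inl ⟨hh, sharp1 h1' h3' hx e', Or.inr ⟨hB, e⟩⟩))
  · have e' := mm e
    rw [mo, ma, mo] at e'
    have s1 := sharp_prime h1' h3' hx e'
    have hB3 : OddHC.ht B ≠ OddHC.ht S := by
      intro h5
      refine sharp_ne (P := Tsq.mir B △ .nil) (Z := Tsq.mir S') ?_ s1 ?_
      · rw [ht_node, n0, ht_mir]
        omega
      · rw [ht_node, n0, ht_mir, ht_mir, hd.htS]
        omega
    have s3 : ¬ NS (Tsq.mir S') := sharp_right hS3 (by rw [ht_node, n0, ht_mir, ht_mir, hd.htS]; omega) s1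
    exact Or.inr (Or.inr (Or.inr ⟨hh, hb, hB, s3, e⟩))
  · have e' := mm e
    rw [mo, mo] at e'
    exact Or.inl ⟨hh, Or.inl ⟨sharp3 h1' h3' hx e', e⟩⟩
  · exact Or.inl ⟨hh, Or.inr e⟩
  · exact absurd e (DT.not_W h1' h3' hd hB hx (i := 19) (by norm_num)).2

end JV

open JV

/-- **the only hits of JV over `(R, B, S')`**, right -/
theorem Is9.hit_W (h : Is9 .nil .nil S F g) (h3 : 3 ≤ ht S) (h1 : (cont S).count 1 = 0)
    (hd : J3.SqD k R B S') {A : Finset (X k)} (hA : ∀ w ∈ A, ∃ i < 20, w.1 = W R .nil B S' i) :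
    ∀ p ∈ g.arcs, ∀ w ∈ innA p, w ∈ A → w = TT p.1 ∧ p.1.1 = (S △ .nil) △ .nil ∧ HitJ (ht S) R B S' w.1 := by
  intro p hp v hv hm
  obtain ⟨i, hi, e⟩ := hA v hm
  rcases h.nis h3 h1 p hp v hv with h4 | ⟨_, rfl, h5⟩
  · exact absurd hm (h4.not_mem (B := A) (fun w hw => by
      obtain ⟨j, hj, e'⟩ := hA w hw
      exact NJS.of_W hd.ne hd.neS hd.one hd.oneB hd.oneS hj (Or.inl e')))
  · exact ⟨rfl, h5, meetJ hd hi e h3 h1 (JV.cont3 h5)⟩

/-- **the only hits of JVm over `(R, B, S')`**, mirrored -/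
theorem Is9M.hit_W (h : Is9M .nil .nil S F g) (h3 : 3 ≤ ht S) (h1 : (cont S).count 1 = 0)
    (hd : J3.SqD k R B S') {A : Finset (X k)} (hA : ∀ w ∈ A, ∃ i < 20, w.1 = W R .nil B S' i) :
    ∀ p ∈ g.arcs, ∀ w ∈ innA p, w ∈ A → ∃ x : X k, w = Tsq.mirX (TT x) ∧
      x.1 = (Tsq.mir S △ .nil) △ .nil ∧ HitJ (ht S) R B S' w.1 := by
  intro p hp v hv hm
  obtain ⟨i, hi, e⟩ := hA v hm
  rcases h.nis h3 h1 p hp v hv with h4 | ⟨_, x, rfl, h5⟩
  · exact absurd hm (h4.not_mem (B := A) (fun w hw => by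
      obtain ⟨j, hj, e'⟩ := hA w hw
      exact NJS.of_W hd.ne hd.neS hd.one hd.oneB hd.oneS hj (Or.inl e')))
  · refine ⟨x, rfl, h5, meetJ hd hi e h3 h1 ?_⟩
    change OddHC.cont (Tsq.mir (TT x).1) = _
    rw [HM.cont_mir, JV.cont3 h5, HM.cont_mir]

/-- **the only hits of JE over `(R, B, S')`** -/
theorem TyJE.hit_W (h : TyJE S F g) (hd : J3.SqD k R B S') {A : Finset (X k)}
    (hA : ∀ w ∈ A, ∃ i < 20, w.1 = W R .nil B S' i) :
    ∀ p ∈ g.arcs, ∀ w ∈ innA p, w ∈ A → w = TT p.1 ∧ p.1.1 = (S △ .nil) △ .nil ∧ HitJ (ht S) R B S' w.1 := by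
  intro p hp v hv hm
  obtain ⟨i, hi, e⟩ := hA v hm
  rcases h.nis p hp v hv with h4 | ⟨_, rfl, h5⟩
  · exact absurd hm (h4.not_mem (B := A) (fun w hw => by
      obtain ⟨j, hj, e'⟩ := hA w hw
      exact NJS.of_W hd.ne hd.neS hd.one hd.oneB hd.oneS hj (Or.inl e')))
  · exact ⟨rfl, h5, meetJ hd hi e h.h3 h.one (JV.cont3 h5)⟩

/-! ### Rows: not sharp -/

/-- **JV against all words over `(R, B, S')`**, right: `S`, `R`, `S'` not sharp, no hit -/
theorem Is9.inner_W_ns (h : Is9 .nil .nil S F g) (h3 : 3 ≤ ht S) (h1 : (cont S).count 1 = 0)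
    (hN : NS S) (hd : J3.SqD k R B S') (n1 : NS R) (n2 : NS S') {A : Finset (X k)}
    (hA : ∀ w ∈ A, ∃ i < 20, w.1 = W R .nil B S' i) : ∀ p ∈ g.arcs, ∀ w ∈ innA p, w ∉ A := by
  intro p hp w hw hm
  obtain ⟨rfl, hx, e⟩ := h.hit_W h3 h1 hd hA p hp w hw hm
  rcases e.sharp h1 h3 hd hx with ⟨-, ⟨h5, -⟩ | ⟨h5, -⟩⟩ | ⟨-, h5, -⟩ | ⟨-, h5, -, -⟩ | ⟨-, -, -, h5, -⟩
  · exact h5 n1
  · exact h5 hN
  · exact h5 n1
  · exact h5 n2
  · exact h5 n2

/-- **JVm against all words over `(R, B, S')`** of greater height: `mir R`, `mir S'` not sharp, no hit -/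
theorem Is9M.inner_W_ns (h : Is9M .nil .nil S F g) (h3 : 3 ≤ ht S) (h1 : (cont S).count 1 = 0)
    (hlt : ht S < ht R) (hd : J3.SqD k R B S') (n1 : NS (Tsq.mir R)) (n2 : NS (Tsq.mir S'))
    {A : Finset (X k)} (hA : ∀ w ∈ A, ∃ i < 20, w.1 = W R .nil B S' i) :
    ∀ p ∈ g.arcs, ∀ w ∈ innA p, w ∉ A := by
  intro p hp w hw hm
  obtain ⟨x, rfl, hx, e⟩ := h.hit_W h3 h1 hd hA p hp w hw hm
  have e' : HitJ (ht S) R B S' (Tsq.mir (TT x).1) := e
  rcases e'.sharpM h1 h3 hd hx with ⟨h5, -⟩ | ⟨-, h5, -⟩ | ⟨-, h5, -⟩ | ⟨-, -, -, h5, -⟩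
  · omega
  · exact h5 n1
  · exact h5 n2
  · exact h5 n2

/-! ### Rows: not `Up` -/

/-- **JV - J2B**, right, `¬ Up S`: all hits have the same height -/
theorem Is9.hit_W_up (h : Is9 .nil .nil S F g) (h3 : 3 ≤ ht S) (h1 : (cont S).count 1 = 0)
    (hU : ¬ Up S) (hd : J3.SqD k R B S') {A : Finset (X k)}
    (hA : ∀ w ∈ A, ∃ i < 20, w.1 = W R .nil B S' i) :
    ∀ p ∈ g.arcs, ∀ w ∈ innA p, w ∈ A → ht R = ht S := by
  intro p hp w hw hm
  obtain ⟨rfl, hx, e⟩ := h.hit_W h3 h1 hd hA p hp w hw hm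
  have h5 := e.le
  by_contra hne
  exact hU ⟨k, p.1, R, B, S', hx, hd, by omega, hA _ hm⟩

/-- **JV - J2B**, right, `¬ Up S`, `NS S`: the only hit is `T(((S))) = ((R))`, `R` sharp, same height -/
theorem Is9.hit_W_up_ns (h : Is9 .nil .nil S F g) (h3 : 3 ≤ ht S) (h1 : (cont S).count 1 = 0)
    (hU : ¬ Up S) (hN : NS S) (hd : J3.SqD k R B S') {A : Finset (X k)}
    (hA : ∀ w ∈ A, ∃ i < 20, w.1 = W R .nil B S' i) :
    ∀ p ∈ g.arcs, ∀ w ∈ innA p, w ∈ A → ht R = ht S ∧ ¬ NS R ∧ w.1 = (R △ .nil) △ .nil := by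
  intro p hp w hw hm
  have h6 := h.hit_W_up h3 h1 hU hd hA p hp w hw hm
  obtain ⟨rfl, hx, e⟩ := h.hit_W h3 h1 hd hA p hp w hw hm
  rcases e.sharp h1 h3 hd hx with ⟨-, ⟨h5, h7⟩ | ⟨h5, -⟩⟩ | ⟨h5, -⟩ | ⟨h5, -⟩ | ⟨h5, -⟩
  · exact ⟨h6, h5, h7⟩
  · exact absurd hN h5
  · omega
  · omega
  · omega

/-- **JV - J2B**, right, `J2B` higher -/
theorem Is9.inner_W_up (h : Is9 .nil .nil S F g) (h3 : 3 ≤ ht S) (h1 : (cont S).count 1 = 0)
    (hU : ¬ Up S) (hne : ht R ≠ ht S) (hd : J3.SqD k R B S') {A : Finset (X k)}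
    (hA : ∀ w ∈ A, ∃ i < 20, w.1 = W R .nil B S' i) : ∀ p ∈ g.arcs, ∀ w ∈ innA p, w ∉ A :=
  fun p hp w hw hm => hne (h.hit_W_up h3 h1 hU hd hA p hp w hw hm)

/-- **JVm - J2B**, `¬ UpM S`: all hits have the same height -/
theorem Is9M.hit_W_up (h : Is9M .nil .nil S F g) (h3 : 3 ≤ ht S) (h1 : (cont S).count 1 = 0)
    (hU : ¬ UpM S) (hd : J3.SqD k R B S') {A : Finset (X k)}
    (hA : ∀ w ∈ A, ∃ i < 20, w.1 = W R .nil B S' i) :
    ∀ p ∈ g.arcs, ∀ w ∈ innA p, w ∈ A → ht R = ht S := by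
  intro p hp w hw hm
  obtain ⟨x, rfl, hx, e⟩ := h.hit_W h3 h1 hd hA p hp w hw hm
  have h5 := e.le
  by_contra hne
  exact hU ⟨k, x, R, B, S', hx, hd, by omega, hA _ hm⟩

theorem Is9M.inner_W_up (h : Is9M .nil .nil S F g) (h3 : 3 ≤ ht S) (h1 : (cont S).count 1 = 0)
    (hU : ¬ UpM S) (hne : ht R ≠ ht S) (hd : J3.SqD k R B S') {A : Finset (X k)}
    (hA : ∀ w ∈ A, ∃ i < 20, w.1 = W R .nil B S' i) : ∀ p ∈ g.arcs, ∀ w ∈ innA p, w ∉ A :=
  fun p hp w hw hm => hne (h.hit_W_up h3 h1 hU hd hA p hp w hw hm)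

/-- **JE - J2B** -/
theorem TyJE.hit_W_up (h : TyJE S F g) (hU : ¬ Up S) (hd : J3.SqD k R B S') {A : Finset (X k)}
    (hA : ∀ w ∈ A, ∃ i < 20, w.1 = W R .nil B S' i) :
    ∀ p ∈ g.arcs, ∀ w ∈ innA p, w ∈ A → ht R = ht S := by
  intro p hp w hw hm
  by_contra hne
  exact h.inner_of9 (A := A) (fun F1 g1 e1 _ => e1.inner_W_up h.h3 h.one hU hne hd hA) p hp w hw hm

theorem TyJE.inner_W_ns (h : TyJE S F g) (hN : NS S) (hd : J3.SqD k R B S') (n1 : NS R) (n2 : NS S')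
    {A : Finset (X k)} (hA : ∀ w ∈ A, ∃ i < 20, w.1 = W R .nil B S' i) :
    ∀ p ∈ g.arcs, ∀ w ∈ innA p, w ∉ A :=
  h.inner_of9 fun _ _ e1 _ => e1.inner_W_ns h.h3 h.one hN hd n1 n2 hA

theorem TyJE.inner_W_up (h : TyJE S F g) (hU : ¬ Up S) (hne : ht R ≠ ht S) (hd : J3.SqD k R B S')
    {A : Finset (X k)} (hA : ∀ w ∈ A, ∃ i < 20, w.1 = W R .nil B S' i) :
    ∀ p ∈ g.arcs, ∀ w ∈ innA p, w ∉ A :=
  fun p hp w hw hm => hne (h.hit_W_up hU hd hA p hp w hw hm)

/-! ### The mirrored target J2BM: words with `mir w = W R nil B S' i` -/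

/-- **the only hits of JV over the mirrored words** -/
theorem Is9.hit_WM (h : Is9 .nil .nil S F g) (h3 : 3 ≤ ht S) (h1 : (cont S).count 1 = 0)
    (hd : J3.SqD k R B S') {A : Finset (X k)} (hA : ∀ w ∈ A, ∃ i < 20, Tsq.mir w.1 = W R .nil B S' i) :
    ∀ p ∈ g.arcs, ∀ w ∈ innA p, w ∈ A → w = TT p.1 ∧ p.1.1 = (S △ .nil) △ .nil ∧
      HitJ (ht S) R B S' (Tsq.mir w.1) := by
  intro p hp v hv hm
  obtain ⟨i, hi, e⟩ := hA v hm
  rcases h.nis h3 h1 p hp v hv with h4 | ⟨_, rfl, h5⟩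
  · exact absurd hm (h4.not_mem (B := A) (fun w hw => by
      obtain ⟨j, hj, e'⟩ := hA w hw
      exact NJS.of_W hd.ne hd.neS hd.one hd.oneB hd.oneS hj (Or.inr (by rw [← e', Tsq.mir_mir]))))
  · refine ⟨rfl, h5, meetJ (y := Tsq.mirX (TT p.1)) hd hi e h3 h1 ?_⟩
    change OddHC.cont (Tsq.mir (TT p.1).1) = _
    rw [HM.cont_mir, JV.cont3 h5]

/-- **the only hits of JVm over the mirrored words** -/
theorem Is9M.hit_WM (h : Is9M .nil .nil S F g) (h3 : 3 ≤ ht S) (h1 : (cont S).count 1 = 0)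
    (hd : J3.SqD k R B S') {A : Finset (X k)} (hA : ∀ w ∈ A, ∃ i < 20, Tsq.mir w.1 = W R .nil B S' i) :
    ∀ p ∈ g.arcs, ∀ w ∈ innA p, w ∈ A → ∃ x : X k, w = Tsq.mirX (TT x) ∧
      x.1 = (Tsq.mir S △ .nil) △ .nil ∧ HitJ (ht S) R B S' (TT x).1 := by
  intro p hp v hv hm
  obtain ⟨i, hi, e⟩ := hA v hm
  rcases h.nis h3 h1 p hp v hv with h4 | ⟨_, x, rfl, h5⟩
  · exact absurd hm (h4.not_mem (B := A) (fun w hw => by
      obtain ⟨j, hj, e'⟩ := hA w hw
      exact NJS.of_W hd.ne hd.neS hd.one hd.oneB hd.oneS hj (Or.inr (by rw [← e', Tsq.mir_mir]))))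
  · have e' : Tsq.mir (Tsq.mir (TT x).1) = W R .nil B S' i := e
    rw [Tsq.mir_mir] at e'
    refine ⟨x, rfl, h5, ?_⟩
    have h6 : HitJ (ht (Tsq.mir S)) R B S' (TT x).1 := meetJ hd hi e' (by rw [ht_mir]; exact h3)
      (by rw [HM.cont_mir]; exact h1) (JV.cont3 h5)
    rwa [ht_mir] at h6

/-- **JV - J2BM**: the words of greater height, `mir R`, `mir S'` not sharp -/
theorem Is9.inner_WM_ns (h : Is9 .nil .nil S F g) (h3 : 3 ≤ ht S) (h1 : (cont S).count 1 = 0)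
    (hlt : ht S < ht R) (hd : J3.SqD k R B S') (n1 : NS (Tsq.mir R)) (n2 : NS (Tsq.mir S'))
    {A : Finset (X k)} (hA : ∀ w ∈ A, ∃ i < 20, Tsq.mir w.1 = W R .nil B S' i) :
    ∀ p ∈ g.arcs, ∀ w ∈ innA p, w ∉ A := by
  intro p hp w hw hm
  obtain ⟨rfl, hx, e⟩ := h.hit_WM h3 h1 hd hA p hp w hw hm
  have e' : HitJ (ht (Tsq.mir S)) R B S' (Tsq.mir (TT p.1).1) := by rw [ht_mir]; exact e
  have hx' : p.1.1 = (Tsq.mir (Tsq.mir S) △ .nil) △ .nil := by rw [Tsq.mir_mir]; exact hx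
  rcases e'.sharpM (by rw [HM.cont_mir]; exact h1) (by rw [ht_mir]; exact h3) hd hx' with
    ⟨h5, -⟩ | ⟨-, h5, -⟩ | ⟨-, h5, -⟩ | ⟨-, -, -, h5, -⟩
  · rw [ht_mir] at h5
    omega
  · exact h5 n1
  · exact h5 n2
  · exact h5 n2

/-- **JV - J2BM**, `¬ UpM (mir S)` -/
theorem Is9.hit_WM_up (h : Is9 .nil .nil S F g) (h3 : 3 ≤ ht S) (h1 : (cont S).count 1 = 0)
    (hU : ¬ UpM (Tsq.mir S)) (hd : J3.SqD k R B S') {A : Finset (X k)}
    (hA : ∀ w ∈ A, ∃ i < 20, Tsq.mir w.1 = W R .nil B S' i) :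
    ∀ p ∈ g.arcs, ∀ w ∈ innA p, w ∈ A → ht R = ht S := by
  intro p hp w hw hm
  obtain ⟨rfl, hx, e⟩ := h.hit_WM h3 h1 hd hA p hp w hw hm
  have h5 := e.le
  by_contra hne
  exact hU ⟨k, p.1, R, B, S', by rw [Tsq.mir_mir]; exact hx, hd, by rw [ht_mir]; omega, hA _ hm⟩

/-- **JVm - J2BM**: `mir S`, `R`, `S'` not sharp, no hit -/
theorem Is9M.inner_WM_ns (h : Is9M .nil .nil S F g) (h3 : 3 ≤ ht S) (h1 : (cont S).count 1 = 0)
    (hN : NS (Tsq.mir S)) (hd : J3.SqD k R B S') (n1 : NS R) (n2 : NS S') {A : Finset (X k)}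
    (hA : ∀ w ∈ A, ∃ i < 20, Tsq.mir w.1 = W R .nil B S' i) : ∀ p ∈ g.arcs, ∀ w ∈ innA p, w ∉ A := by
  intro p hp w hw hm
  obtain ⟨x, rfl, hx, e⟩ := h.hit_WM h3 h1 hd hA p hp w hw hm
  have e' : HitJ (ht (Tsq.mir S)) R B S' (TT x).1 := by rw [ht_mir]; exact e
  rcases e'.sharp (by rw [HM.cont_mir]; exact h1) (by rw [ht_mir]; exact h3) hd hx with
    ⟨-, ⟨h5, -⟩ | ⟨h5, -⟩⟩ | ⟨-, h5, -⟩ | ⟨-, h5, -, -⟩ | ⟨-, -, -, h5, -⟩
  · exact h5 n1
  · exact h5 hN
  · exact h5 n1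
  · exact h5 n2
  · exact h5 n2

/-- **JVm - J2BM**, `¬ Up (mir S)` -/
theorem Is9M.hit_WM_up (h : Is9M .nil .nil S F g) (h3 : 3 ≤ ht S) (h1 : (cont S).count 1 = 0)
    (hU : ¬ Up (Tsq.mir S)) (hd : J3.SqD k R B S') {A : Finset (X k)}
    (hA : ∀ w ∈ A, ∃ i < 20, Tsq.mir w.1 = W R .nil B S' i) :
    ∀ p ∈ g.arcs, ∀ w ∈ innA p, w ∈ A → ht R = ht S := by
  intro p hp w hw hm
  obtain ⟨x, rfl, hx, e⟩ := h.hit_WM h3 h1 hd hA p hp w hw hm
  have h5 := e.le
  by_contra hne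
  obtain ⟨i, hi, e6⟩ := hA _ hm
  have e7 : Tsq.mir (Tsq.mir (TT x).1) = W R .nil B S' i := e6
  rw [Tsq.mir_mir] at e7
  exact hU ⟨k, x, R, B, S', hx, hd, by rw [ht_mir]; omega, i, hi, e7⟩

end Pool.OddHC
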