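import Pool.Agent.Work.MP_8f87b2_h77.JVJ2B
import Pool.Agent.Work.MP_8f87b2_h17.TyJ2BM
import Pool.Agent.Work.MP_8f87b2_h17.TyJ2v
import Pool.Agent.Work.MP_8f87b2_h25.JEM

/-!
# MP_8f87b2_co: the inner words of JV, JVm, JE, JEM against the types TyJ2R, TyJ2Rv, TyJ2RM: all hits have the same height
-/

set_option autoImplicit false

namespace Pool.OddHC

open Finset Equiv BinaryTree Pool.Agent.Work.MP_8f87b2_co

open J3 JV JV1 SRun H1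

variable {k v : ℕ} {F F' : Set (Cyc k)} {g g' : DG k} {S R B S' : BinaryTree Unit}

/-- the twenty words over `(R, B, S')` -/
def WdJ2 (R B S' : BinaryTree Unit) (g : DG k) : Prop :=
  SqD k R B S' ∧ ∀ w ∈ g.B, ∃ i < 20, w.1 = W R .nil B S' i

/-- the mirror images -/
def WdJ2M (R B S' : BinaryTree Unit) (g : DG k) : Prop :=
  SqD k R B S' ∧ ∀ w ∈ g.B, ∃ i < 20, Tsq.mir w.1 = W R .nil B S' i

theorem TyJ2R.wdJ2 (h : TyJ2R R B S' F g) : WdJ2 R B S' g := ⟨h.sqd, h.words⟩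

theorem TyJ2Rv.wdJ2 (h : TyJ2Rv v R B S' F g) : WdJ2 R B S' g := ⟨h.sqd, h.words⟩

theorem TyJ2RM.wdJ2M (h : TyJ2RM R B S' F g) : WdJ2M R B S' g := by
  refine ⟨h.sqd, fun w hw => ?_⟩
  obtain ⟨i, hi, e⟩ := h.words w hw
  exact ⟨i, hi, by rw [e, Tsq.mir_mir]⟩

/-- **I-JV-J2B** : no hit into a group of another height -/
theorem Is9.inner_J2 (h : Is9 .nil .nil S F g) (h3 : 3 ≤ ht S) (h1 : (cont S).count 1 = 0) (hU : ¬ Up S)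
    (h' : WdJ2 R B S' g') (hne : ht R ≠ ht S) : ∀ p ∈ g.arcs, ∀ w ∈ innA p, w ∉ g'.B :=
  h.inner_W_up h3 h1 hU hne h'.1 h'.2

/-- **I-JVm-J2B** -/
theorem Is9M.inner_J2 (h : Is9M .nil .nil S F g) (h3 : 3 ≤ ht S) (h1 : (cont S).count 1 = 0) (hU : ¬ UpM S)
    (h' : WdJ2 R B S' g') (hne : ht R ≠ ht S) : ∀ p ∈ g.arcs, ∀ w ∈ innA p, w ∉ g'.B :=
  h.inner_W_up h3 h1 hU hne h'.1 h'.2

/-- **I-JE-J2B** -/
theorem TyJE.inner_J2 (h : TyJE S F g) (hU : ¬ Up S) (h' : WdJ2 R B S' g') (hne : ht R ≠ ht S) :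
    ∀ p ∈ g.arcs, ∀ w ∈ innA p, w ∉ g'.B :=
  h.inner_W_up hU hne h'.1 h'.2

/-- **I-JEM-J2B** -/
theorem TyJEM.inner_J2 (h : TyJEM S F g) (hU : ¬ UpM S) (h' : WdJ2 R B S' g') (hne : ht R ≠ ht S) :
    ∀ p ∈ g.arcs, ∀ w ∈ innA p, w ∉ g'.B :=
  h.inner_of9 fun _ _ e1 _ => e1.inner_J2 h.h3 h.one hU h' hne

/-- **I-JV-J2BM** -/
theorem Is9.inner_J2M (h : Is9 .nil .nil S F g) (h3 : 3 ≤ ht S) (h1 : (cont S).count 1 = 0)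
    (hU : ¬ UpM (Tsq.mir S)) (h' : WdJ2M R B S' g') (hne : ht R ≠ ht S) :
    ∀ p ∈ g.arcs, ∀ w ∈ innA p, w ∉ g'.B :=
  fun p hp w hw hm => hne (h.hit_WM_up h3 h1 hU h'.1 h'.2 p hp w hw hm)

/-- **I-JVm-J2BM** -/
theorem Is9M.inner_J2M (h : Is9M .nil .nil S F g) (h3 : 3 ≤ ht S) (h1 : (cont S).count 1 = 0)
    (hU : ¬ Up (Tsq.mir S)) (h' : WdJ2M R B S' g') (hne : ht R ≠ ht S) :
    ∀ p ∈ g.arcs, ∀ w ∈ innA p, w ∉ g'.B :=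
  fun p hp w hw hm => hne (h.hit_WM_up h3 h1 hU h'.1 h'.2 p hp w hw hm)

/-- the same with the heights of the T-cycles -/
theorem Is9.hit_J2R (h : Is9 .nil .nil S F g) (h3 : 3 ≤ ht S) (h1 : (cont S).count 1 = 0) (hU : ¬ Up S)
    (h' : TyJ2R R B S' F' g') : ∀ p ∈ g.arcs, ∀ w ∈ innA p, w ∈ g'.B → ∀ c ∈ F, ∀ d ∈ F', htc c = htc d := by
  intro p hp w hw hm c hc d hd
  rw [h.htp' c hc, h'.htp' d hd]
  exact (h.hit_W_up h3 h1 hU h'.sqd h'.words p hp w hw hm).symm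

/-- two groups of type JV and J2B of the same height: the only hit -/
theorem Is9.hit_J2R_ns (h : Is9 .nil .nil S F g) (h3 : 3 ≤ ht S) (h1 : (cont S).count 1 = 0) (hU : ¬ Up S)
    (hN : NS S) (h' : TyJ2R R B S' F' g') : ∀ p ∈ g.arcs, ∀ w ∈ innA p, w ∈ g'.B →
      w = TT p.1 ∧ p.1.1 = (S △ .nil) △ .nil ∧ w.1 = (R △ .nil) △ .nil ∧ ¬ NS R ∧ ht R = ht S := by
  intro p hp w hw hm
  obtain ⟨h5, h6, h7⟩ := h.hit_W_up_ns h3 h1 hU hN h'.sqd h'.words p hp w hw hm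
  obtain ⟨h8, h9, -⟩ := h.hit_W h3 h1 h'.sqd h'.words p hp w hw hm
  exact ⟨h8, h9, h7, h6, h5⟩

end Pool.OddHC
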